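import Pool.Agent.Lib.MP_e3f158_nt.G.Defs
import Pool.Agent.Lib.MP_c77da8_nt.Sv4
import Pool.Agent.Lib.MP_e3f158_nt.Mertens

/-!
# MP_e3f158_nt, gaps: Mertens type bounds (module GP-Mert)
-/

set_option autoImplicit false

namespace Pool.Agent.Lib.MP_e3f158_nt.G

open Finset

private theorem prs_sdiff (a b : ℕ) :
    prs (2 ^ a) (2 ^ b) = Nat.primesLE (2 ^ b) \ Nat.primesLE (2 ^ a) := by
  ext p
  rw [mem_prs, mem_sdiff, Nat.mem_primesLE, Nat.mem_primesLE]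
  constructor
  · rintro ⟨h1, h2, h3⟩
    exact ⟨⟨h2, h3⟩, fun h => by omega⟩
  · rintro ⟨⟨h1, h2⟩, h3⟩
    refine ⟨?_, h1, h2⟩
    by_contra h
    exact h3 ⟨not_lt.1 h, h2⟩

/-- HINT: `Sv4.lean` (`Pool.Agent.Lib.MP_c77da8_nt.Sv`): `R_diff`, `R2_diff`, `one_sub_ge2`; here
`ww t = 2 ^ (2 ^ t)`, `HH t = 2 ^ (206 * 2 ^ t)`, so `∑ 1/p ≤ log 206 + 8` over these primes. -/
theorem mert_two : ∃ c : ℝ, 0 < c ∧ ∀ t : ℕ, 1 ≤ t →
    c ≤ ∏ p ∈ prs (ww t) (HH t), (1 - 2 / (p : ℝ)) := by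
  refine ⟨Real.exp (-(2 * (Real.log 206 + 8) + 4)), Real.exp_pos _, fun t ht => ?_⟩
  have hH : HH t = 2 ^ (2 ^ t * 206) := by
    unfold HH ww
    rw [← pow_mul]
  have hw : ww t = 2 ^ (2 ^ t) := rfl
  have hab : 2 ^ t ≤ 2 ^ t * 206 := by omega
  have ha1 : 1 ≤ 2 ^ t := Nat.one_le_two_pow
  rw [hH, hw, prs_sdiff]
  have h1 := Pool.Agent.Lib.MP_c77da8_nt.Sv.R_diff (2 ^ t) (2 ^ t * 206) ha1 hab
  have h2 := Pool.Agent.Lib.MP_c77da8_nt.Sv.R2_diff (2 ^ t) (2 ^ t * 206) hab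
  have h3 : (((2 ^ t * 206 : ℕ)) : ℝ) / ((2 ^ t : ℕ) : ℝ) = 206 := by
    push_cast
    field_simp
  rw [h3] at h1
  have h4 : (1 : ℝ) / 2 ^ (2 ^ t) ≤ 1 := by
    rw [div_le_one (by positivity)]
    exact one_le_pow₀ (by norm_num)
  have e1 := Pool.Agent.Lib.MP_c77da8_nt.Sv.sum_sdiff_eq (fun p : ℕ => (1 : ℝ) / p) hab
  have e2 := Pool.Agent.Lib.MP_c77da8_nt.Sv.sum_sdiff_eq (fun p : ℕ => (1 : ℝ) / (p : ℝ) ^ 2) hab
  have e3 : ∑ p ∈ Nat.primesLE (2 ^ (2 ^ t * 206)) \ Nat.primesLE (2 ^ 2 ^ t), (1 : ℝ) / p ≤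
      Real.log 206 + 8 := by
    rw [e1]
    exact h1
  have e4 : ∑ p ∈ Nat.primesLE (2 ^ (2 ^ t * 206)) \ Nat.primesLE (2 ^ 2 ^ t),
      (1 : ℝ) / (p : ℝ) ^ 2 ≤ 1 := by
    rw [e2]
    exact h2.trans h4
  have e5 : ∏ p ∈ Nat.primesLE (2 ^ (2 ^ t * 206)) \ Nat.primesLE (2 ^ 2 ^ t),
      Real.exp (-(2 / (p : ℝ) + (2 / (p : ℝ)) ^ 2)) ≤
      ∏ p ∈ Nat.primesLE (2 ^ (2 ^ t * 206)) \ Nat.primesLE (2 ^ 2 ^ t), (1 - 2 / (p : ℝ)) := by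
    refine prod_le_prod (fun _ _ => (Real.exp_pos _).le) fun p hp => ?_
    rw [← prs_sdiff, mem_prs] at hp
    have h5 : 4 ≤ p := by
      have : 2 ^ 2 ≤ 2 ^ 2 ^ t := by
        refine Nat.pow_le_pow_right (by norm_num) ?_
        calc 2 = 2 ^ 1 := by norm_num
          _ ≤ 2 ^ t := Nat.pow_le_pow_right (by norm_num) ht
      omega
    have h6 : (4 : ℝ) ≤ p := by exact_mod_cast h5
    refine Pool.Agent.Lib.MP_c77da8_nt.Sv.one_sub_ge2 _ (by positivity) ?_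
    rw [div_le_div_iff₀ (by linarith) (by norm_num)]
    linarith
  refine le_trans ?_ e5
  rw [← Real.exp_sum, Real.exp_le_exp, sum_neg_distrib, neg_le_neg_iff, sum_add_distrib]
  have e6 : ∑ p ∈ Nat.primesLE (2 ^ (2 ^ t * 206)) \ Nat.primesLE (2 ^ 2 ^ t), 2 / (p : ℝ) =
      2 * ∑ p ∈ Nat.primesLE (2 ^ (2 ^ t * 206)) \ Nat.primesLE (2 ^ 2 ^ t), (1 : ℝ) / p := by
    rw [mul_sum]
    exact sum_congr rfl fun p _ => by ring
  have e7 : ∑ p ∈ Nat.primesLE (2 ^ (2 ^ t * 206)) \ Nat.primesLE (2 ^ 2 ^ t),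
      (2 / (p : ℝ)) ^ 2 =
      4 * ∑ p ∈ Nat.primesLE (2 ^ (2 ^ t * 206)) \ Nat.primesLE (2 ^ 2 ^ t),
        (1 : ℝ) / (p : ℝ) ^ 2 := by
    rw [mul_sum]
    exact sum_congr rfl fun p _ => by ring
  rw [e6, e7]
  linarith

/-- HINT: `∑_{p ≤ z} 1/p ≤ log log z + O(1)` (`Mertens.lean` `sum_inv_le`, or `R_diff`), or
elementary. -/
theorem mert_one : ∃ c : ℝ, 0 < c ∧ ∀ a z : ℕ, 2 ≤ z →
    c / Real.log z ≤ ∏ p ∈ prs a z, (1 - 1 / (p : ℝ)) := by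
  refine ⟨Real.exp (-7) / 4, by positivity, fun a z hz => ?_⟩
  have hzr : (2 : ℝ) ≤ z := by exact_mod_cast hz
  set J : ℕ := Nat.log 2 z + 1 with hJ
  have hl2 := Real.log_two_gt_d9
  have hlog1 : 1 ≤ Nat.log 2 z := Nat.log_pos (by norm_num) hz
  have hJ2 : 2 ≤ J := by omega
  have hJr : (2 : ℝ) ≤ J := by exact_mod_cast hJ2
  have h1 : z < 2 ^ J := Nat.lt_pow_succ_log_self (by norm_num) z
  have h6 : (Nat.log 2 z : ℝ) * Real.log 2 ≤ Real.log z := by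
    have h7 : (2 : ℝ) ^ (Nat.log 2 z) ≤ z := by
      exact_mod_cast Nat.pow_log_le_self 2 (by omega)
    have h8 := Real.log_le_log (by positivity) h7
    rwa [Real.log_pow] at h8
  have hz2 : Real.log 2 ≤ Real.log z := Real.log_le_log (by norm_num) hzr
  have hzpos : 0 < Real.log z := by linarith
  have h9 : (J : ℝ) ≤ 4 * Real.log z := by
    rw [hJ]
    push_cast
    have h10 : (Nat.log 2 z : ℝ) ≤ 2 * Real.log z := by
      have : (0 : ℝ) ≤ (Nat.log 2 z : ℝ) := by positivity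
      nlinarith
    linarith
  -- factors
  have hf : ∀ p ∈ Nat.primesLE (2 ^ J), Real.exp (-(1 / (p : ℝ) + (1 / (p : ℝ)) ^ 2)) ≤
      1 - 1 / (p : ℝ) ∧ 1 - 1 / (p : ℝ) ≤ 1 := by
    intro p hp
    rw [Nat.mem_primesLE] at hp
    have h11 : (2 : ℝ) ≤ p := by exact_mod_cast hp.2.two_le
    constructor
    · refine Pool.Agent.Lib.MP_c77da8_nt.Sv.one_sub_ge2 _ (by positivity) ?_
      exact one_div_le_one_div_of_le (by norm_num) h11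
    · have : 0 ≤ 1 / (p : ℝ) := by positivity
      linarith
  have hsub : prs a z ⊆ Nat.primesLE (2 ^ J) := by
    intro p hp
    rw [mem_prs] at hp
    rw [Nat.mem_primesLE]
    exact ⟨by omega, hp.2.2⟩
  have h12 : ∏ p ∈ Nat.primesLE (2 ^ J), (1 - 1 / (p : ℝ)) ≤ ∏ p ∈ prs a z, (1 - 1 / (p : ℝ)) := by
    rw [← prod_sdiff hsub]
    have h13 : ∏ p ∈ Nat.primesLE (2 ^ J) \ prs a z, (1 - 1 / (p : ℝ)) ≤ 1 :=
      prod_le_one (fun p hp => (Real.exp_pos _).le.trans (hf p (mem_sdiff.1 hp).1).1)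
        fun p hp => (hf p (mem_sdiff.1 hp).1).2
    have h14 : 0 ≤ ∏ p ∈ prs a z, (1 - 1 / (p : ℝ)) :=
      prod_nonneg fun p hp => (Real.exp_pos _).le.trans (hf p (hsub hp)).1
    calc _ ≤ 1 * ∏ p ∈ prs a z, (1 - 1 / (p : ℝ)) := mul_le_mul_of_nonneg_right h13 h14
      _ = _ := one_mul _
  refine le_trans ?_ h12
  have h15 : ∏ p ∈ Nat.primesLE (2 ^ J), Real.exp (-(1 / (p : ℝ) + (1 / (p : ℝ)) ^ 2)) ≤
      ∏ p ∈ Nat.primesLE (2 ^ J), (1 - 1 / (p : ℝ)) :=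
    prod_le_prod (fun _ _ => (Real.exp_pos _).le) fun p hp => (hf p hp).1
  refine le_trans ?_ h15
  rw [← Real.exp_sum, sum_neg_distrib, sum_add_distrib]
  have h16 := Pool.Agent.Lib.MP_c77da8_nt.Mert.R_le J (by omega)
  unfold Pool.Agent.Lib.MP_c77da8_nt.Mert.R at h16
  have h17 := Pool.Agent.Lib.MP_c77da8_nt.Sv.R2_diff 0 J (Nat.zero_le _)
  have h18 : Pool.Agent.Lib.MP_c77da8_nt.Sv.R2 0 = 0 := by
    unfold Pool.Agent.Lib.MP_c77da8_nt.Sv.R2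
    refine sum_eq_zero fun p hp => ?_
    rw [Nat.mem_primesLE] at hp
    have := hp.2.two_le
    have := hp.1
    norm_num at this
    omega
  rw [h18, sub_zero, pow_zero, div_one] at h17
  unfold Pool.Agent.Lib.MP_c77da8_nt.Sv.R2 at h17
  have h19 : ∑ p ∈ Nat.primesLE (2 ^ J), (1 / (p : ℝ)) ^ 2 =
      ∑ p ∈ Nat.primesLE (2 ^ J), (1 : ℝ) / (p : ℝ) ^ 2 :=
    sum_congr rfl fun p _ => by rw [one_div_pow]
  rw [h19]
  have h20 : Real.exp (-(Real.log J + 7)) ≤ Real.exp (-(∑ p ∈ Nat.primesLE (2 ^ J), 1 / (p : ℝ) +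
      ∑ p ∈ Nat.primesLE (2 ^ J), (1 : ℝ) / (p : ℝ) ^ 2)) := by
    rw [Real.exp_le_exp]
    linarith
  refine le_trans ?_ h20
  rw [neg_add, Real.exp_add, Real.exp_neg (Real.log J), Real.exp_log (by linarith)]
  rw [div_div, div_le_iff₀ (by positivity)]
  have h21 : 1 ≤ (J : ℝ)⁻¹ * (4 * Real.log z) := by
    rw [← div_eq_inv_mul, le_div_iff₀ (by linarith)]
    linarith
  calc Real.exp (-7) = Real.exp (-7) * 1 := (mul_one _).symm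
    _ ≤ Real.exp (-7) * ((J : ℝ)⁻¹ * (4 * Real.log z)) :=
      mul_le_mul_of_nonneg_left h21 (Real.exp_pos _).le
    _ = _ := by ring

/-- crude bound (harmonic sum) -/
theorem sum_inv_prs (a z : ℕ) (_hz : 1 ≤ z) :
    ∑ p ∈ prs a z, (1 : ℝ) / p ≤ 1 + Real.log z := by
  have h1 := harmonic_le_one_add_log z
  rw [harmonic_eq_sum_Icc] at h1
  push_cast at h1
  refine le_trans ?_ h1
  simp_rw [one_div]
  refine sum_le_sum_of_subset_of_nonneg ?_ fun _ _ _ => by positivity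
  intro p hp
  rw [mem_prs] at hp
  rw [mem_Icc]
  exact ⟨hp.2.2.one_le, hp.2.1⟩

end Pool.Agent.Lib.MP_e3f158_nt.G
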