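import Pool.Agent.Lib.MP_e3f158_nt.G.Defs
import Pool.Agent.Lib.MP_c77da8_nt.Sv4

/-!
# MP_e3f158_nt, gaps: every window of length `w ^ 206` contains many `w`-rough numbers
(module GP-Window)
-/

set_option autoImplicit false

namespace Pool.Agent.Lib.MP_e3f158_nt.G

open Finset

/-- HINT: `Pool.Agent.Lib.MP_c77da8_nt.Sv.sieve_blk` with `k = 1`, `u = 1`, this `t`,
`N = HH t = 2 ^ (206 * 2 ^ t)`, `M = 2` and the class of `v + 1 + m` odd,
`B q = {b < q : q ∣ v + 1 + b}` (one element); `exists_blk` says that the blocks cover the primes in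
`(2, 2 ^ 2 ^ t]`; `V_lower` gives `∏ ≥ 1 / 2 ^ (t + 13)`. The shift is `h = m + 1`. The remainder
`(t + 1) * 2 ^ (204 * 2 ^ t)` is negligible against `HH t / 2 ^ (t + 15)`. Take `c = 1 / 2 ^ 17`. -/
theorem window : ∃ c : ℝ, 0 < c ∧ ∃ t0 : ℕ, ∀ t : ℕ, t0 ≤ t → ∀ v : ℕ,
    c * (HH t : ℝ) / 2 ^ t ≤ ((surv (prs 0 (ww t)) (HH t) v).card : ℝ) := by
  classical
  refine ⟨1 / 2 ^ 17, by positivity, 5, fun t ht v => ?_⟩
  obtain ⟨B, hBdef⟩ : ∃ B : ℕ → Finset ℕ, ∀ q, B q = (range q).filter (fun b => q ∣ v + 1 + b) :=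
    ⟨fun q => (range q).filter (fun b => q ∣ v + 1 + b), fun _ => rfl⟩
  have hBcard : ∀ q : ℕ, (B q).card ≤ 1 := by
    intro q
    rw [card_le_one]
    intro a ha b hb
    rw [hBdef, mem_filter, mem_range] at ha hb
    have h1 : a ≡ b [MOD q] := by
      have h2 : v + 1 + a ≡ v + 1 + b [MOD q] :=
        ((Nat.modEq_zero_iff_dvd.2 ha.2).trans (Nat.modEq_zero_iff_dvd.2 hb.2).symm)
      exact Nat.ModEq.add_left_cancel' (v + 1) h2
    unfold Nat.ModEq at h1
    rwa [Nat.mod_eq_of_lt ha.1, Nat.mod_eq_of_lt hb.1] at h1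
  have hS := (Pool.Agent.Lib.MP_c77da8_nt.Sv.sieve_blk 1 1 t le_rfl (by norm_num) le_rfl B
    (fun j q _ => hBcard q)
    (fun j q _ b hb => by
      rw [hBdef, mem_filter, mem_range] at hb
      exact hb.1) (HH t) 2 v (by norm_num)
    (fun j q hq => by
      have h1 := Pool.Agent.Lib.MP_c77da8_nt.Sv.blk_gt hq
      have h2 := (Pool.Agent.Lib.MP_c77da8_nt.Sv.mem_blk.1 hq).1
      exact (Nat.coprime_primes Nat.prime_two h2).2 (by omega))).1
  have hV := Pool.Agent.Lib.MP_c77da8_nt.Sv.V_lower 1 1 t le_rfl (by norm_num) le_rfl B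
    (fun j q _ => hBcard q)
  -- the injection
  have hinj : ((range (HH t)).filter fun m => m ≡ v [MOD 2] ∧
      ∀ j, ∀ q ∈ Pool.Agent.Lib.MP_c77da8_nt.Sv.blk 1 t j, m % q ∉ B q).card ≤
      (surv (prs 0 (ww t)) (HH t) v).card := by
    refine card_le_card_of_injOn (fun m => m + 1) ?_ ?_
    · intro m hm
      rw [mem_coe, mem_filter, mem_range] at hm
      obtain ⟨hm1, hm2, hm3⟩ := hm
      rw [mem_coe]
      unfold surv
      rw [mem_filter, mem_Icc]
      refine ⟨⟨Nat.succ_le_succ (Nat.zero_le m), hm1⟩, fun p hp hd => ?_⟩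
      rw [mem_prs] at hp
      obtain ⟨_, hp2, hp3⟩ := hp
      rcases Nat.lt_or_ge 2 p with h2 | h2
      · obtain ⟨j, hj⟩ := Pool.Agent.Lib.MP_c77da8_nt.Sv.exists_blk (u := 1) (t := t) hp3
          (by simpa using h2) (by
            rw [one_mul]
            exact hp2)
        refine hm3 j p hj ?_
        rw [hBdef, mem_filter, mem_range]
        refine ⟨Nat.mod_lt _ hp3.pos, ?_⟩
        have h3 : v + 1 + m % p ≡ v + (m + 1) [MOD p] := by
          have h4 : v + 1 + m % p ≡ v + 1 + m [MOD p] :=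
            Nat.ModEq.add_left _ (Nat.mod_modEq m p)
          have h5 : v + 1 + m = v + (m + 1) := by ring
          rwa [h5] at h4
        exact (Nat.modEq_zero_iff_dvd.1 (h3.trans (Nat.modEq_zero_iff_dvd.2 hd)))
      · have hp4 : p = 2 := le_antisymm h2 hp3.two_le
        subst hp4
        unfold Nat.ModEq at hm2
        have hd' : 2 ∣ v + (m + 1) := hd
        omega
    · intro a _ b _ hab
      have : a + 1 = b + 1 := hab
      omega
  have hinjR : (((range (HH t)).filter fun m => m ≡ v [MOD 2] ∧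
      ∀ j, ∀ q ∈ Pool.Agent.Lib.MP_c77da8_nt.Sv.blk 1 t j, m % q ∉ B q).card : ℝ) ≤
      ((surv (prs 0 (ww t)) (HH t) v).card : ℝ) := by exact_mod_cast hinj
  refine le_trans ?_ hinjR
  refine le_trans ?_ hS
  obtain ⟨V, hVdef⟩ : ∃ V : ℝ, V = ∏ j, ∏ q ∈ Pool.Agent.Lib.MP_c77da8_nt.Sv.blk 1 t j,
      (1 - ((B q).card : ℝ) / q) := ⟨_, rfl⟩
  rw [← hVdef] at hV ⊢
  have hH : (HH t : ℝ) = 2 ^ (206 * 2 ^ t) := by
    unfold HH ww
    push_cast
    rw [← pow_mul]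
    congr 1
    ring
  have hH0 : (0 : ℝ) < (HH t : ℝ) := by rw [hH]; positivity
  have hmain : (t + 1 : ℝ) * 2 ^ (204 * 1 * (1 * 2 ^ t)) ≤ 3 * (HH t : ℝ) / 2 ^ (t + 17) := by
    rw [le_div_iff₀ (by positivity), hH]
    have h1 : (t + 1 : ℝ) ≤ 2 ^ t := by
      have : t + 1 ≤ 2 ^ t := Nat.lt_two_pow_self
      exact_mod_cast this
    have h2 : 2 * t + 17 ≤ 2 * 2 ^ t := by
      have h3 : ∀ s : ℕ, 2 * (5 + s) + 17 ≤ 2 * 2 ^ (5 + s) := by
        intro s
        induction s with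
        | zero => norm_num
        | succ s ih =>
          have : 2 ^ (5 + (s + 1)) = 2 * 2 ^ (5 + s) := by rw [← add_assoc, pow_succ]; ring
          rw [this]
          omega
      obtain ⟨s, rfl⟩ := Nat.exists_eq_add_of_le ht
      exact h3 s
    calc (t + 1 : ℝ) * 2 ^ (204 * 1 * (1 * 2 ^ t)) * 2 ^ (t + 17)
        ≤ 2 ^ t * 2 ^ (204 * 1 * (1 * 2 ^ t)) * 2 ^ (t + 17) := by gcongr
      _ = 2 ^ (204 * 2 ^ t + (2 * t + 17)) := by
          rw [← pow_add, ← pow_add]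
          congr 1
          ring
      _ ≤ 2 ^ (204 * 2 ^ t + 2 * 2 ^ t) :=
          pow_le_pow_right₀ (by norm_num) (by omega)
      _ = 2 ^ (206 * 2 ^ t) := by
          congr 1
          ring
      _ ≤ 3 * 2 ^ (206 * 2 ^ t) := by
          have : (0 : ℝ) < 2 ^ (206 * 2 ^ t) := by positivity
          linarith
  have hVN : (HH t : ℝ) / 2 ^ (t + 15) ≤ 1 / 2 * ((HH t : ℝ) / (2 : ℕ) * V) := by
    have h1 : (1 : ℝ) / 2 ^ (t + 13) ≤ V := by simpa using hV
    calc (HH t : ℝ) / 2 ^ (t + 15) = 1 / 2 * ((HH t : ℝ) / (2 : ℕ) * (1 / 2 ^ (t + 13))) := by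
          rw [show t + 15 = (t + 13) + 2 by ring, pow_add]
          push_cast
          field_simp
      _ ≤ _ := by gcongr
  have hfin : 1 / 2 ^ 17 * (HH t : ℝ) / 2 ^ t = (HH t : ℝ) / 2 ^ (t + 15) -
      3 * (HH t : ℝ) / 2 ^ (t + 17) := by
    rw [pow_add, pow_add]
    field_simp
    ring
  rw [hfin]
  linarith

end Pool.Agent.Lib.MP_e3f158_nt.G
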