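import Pool.Agent.Lib.MP_e3f158_nt.G.ExpMom
import Pool.Agent.Lib.MP_e3f158_nt.G.Window
import Pool.Agent.Lib.MP_e3f158_nt.G.Mert

/-!
# MP_e3f158_nt, gaps: few classes have few surviving shifts (module GP-BadCls)
-/

set_option autoImplicit false

namespace Pool.Agent.Lib.MP_e3f158_nt.G

open Finset

private theorem badcls_surv (w H c v : ℕ) (hwH : w ≤ H) (hcv : c ≡ v [MOD primorial w]) :
    surv (prs 0 H) H c = (surv (prs 0 w) H v).filter fun h => ∀ p ∈ prs w H, ¬ p ∣ c + h := by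
  ext h
  unfold surv
  rw [mem_filter, mem_filter, mem_filter, and_assoc]
  refine and_congr_right fun _ => ?_
  have hsmall : ∀ p ∈ prs 0 w, (p ∣ c + h ↔ p ∣ v + h) := by
    intro p hp
    rw [mem_prs] at hp
    have h1 : p ∣ primorial w := (dvd_primorial_iff hp.2.2).2 hp.2.1
    have h2 : c + h ≡ v + h [MOD p] := Nat.ModEq.add_right h (hcv.of_dvd h1)
    rw [← Nat.modEq_zero_iff_dvd, ← Nat.modEq_zero_iff_dvd]
    exact ⟨fun h3 => h2.symm.trans h3, fun h3 => h2.trans h3⟩
  constructor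
  · intro hall
    refine ⟨fun p hp => ?_, fun p hp => ?_⟩
    · rw [← hsmall p hp]
      refine hall p ?_
      rw [mem_prs] at hp ⊢
      exact ⟨hp.1, hp.2.1.trans hwH, hp.2.2⟩
    · refine hall p ?_
      rw [mem_prs] at hp ⊢
      exact ⟨by omega, hp.2.1, hp.2.2⟩
  · rintro ⟨h1, h2⟩ p hp
    rcases Nat.lt_or_ge w p with hwp | hwp
    · refine h2 p ?_
      rw [mem_prs] at hp ⊢
      exact ⟨hwp, hp.2.1, hp.2.2⟩
    · have h3 : p ∈ prs 0 w := by
        rw [mem_prs] at hp ⊢
        exact ⟨hp.1, hwp, hp.2.2⟩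
      rw [hsmall p h3]
      exact h1 p h3

private theorem badcls_primorial (w H : ℕ) (hwH : w ≤ H) :
    primorial H = primorial w * ∏ p ∈ prs w H, p := by
  rw [primorial_eq, primorial_eq]
  have hd : Disjoint (prs 0 w) (prs w H) := by
    rw [disjoint_left]
    intro p h1 h2
    rw [mem_prs] at h1 h2
    omega
  rw [← prod_union hd]
  refine prod_congr ?_ fun _ _ => rfl
  ext p
  rw [mem_union, mem_prs, mem_prs, mem_prs]
  constructor
  · rintro ⟨h1, h2, h3⟩
    rcases Nat.lt_or_ge w p with hwp | hwp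
    · exact Or.inr ⟨hwp, h2, h3⟩
    · exact Or.inl ⟨h1, hwp, h3⟩
  · rintro (⟨h1, h2, h3⟩ | ⟨h1, h2, h3⟩)
    · exact ⟨h1, h2.trans hwH, h3⟩
    · exact ⟨by omega, h2, h3⟩

/-- HINT: `w = ww t`, `H = HH t = w ^ 206`, `Q = primorial H = primorial w * ∏_{p ∈ prs w H} p`.
Markov: `#bad ≤ exp (lam * w) * ∑_{c < Q} exp (-lam * |surv|)` with `lam = 1 / (H/w + 1)`,
`lam * w ≤ 1`, `lam ≥ w / (2H)`. Split `c` mod `M0 = primorial w`: for `c ≡ v [MOD M0]` one has
`surv (prs 0 H) H c = (surv (prs 0 w) H v).filter (∀ p ∈ prs w H, ¬ p ∣ c + h)`; apply `exp_moment`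
with `S = surv (prs 0 w) H v`, `window` and `mert_two`. `exp 1 ≤ 3`. -/
theorem bad_classes : ∃ c : ℝ, 0 < c ∧ ∃ t0 : ℕ, ∀ t : ℕ, t0 ≤ t →
    (((range (primorial (HH t))).filter fun v =>
      (surv (prs 0 (HH t)) (HH t) v).card < ww t).card : ℝ) ≤
      3 * (primorial (HH t) : ℝ) * Real.exp (-(c * ww t / 2 ^ t)) := by
  classical
  obtain ⟨c1, hc1, t1, hwin⟩ := window
  obtain ⟨c2, hc2, hmert⟩ := mert_two
  refine ⟨c1 * c2 / 2, by positivity, max t1 1, fun t ht => ?_⟩
  have ht1 : t1 ≤ t := (le_max_left _ _).trans ht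
  have ht2 : 1 ≤ t := (le_max_right _ _).trans ht
  have hwin' := hwin t ht1
  have hmert' := hmert t ht2
  obtain ⟨w, hw⟩ : ∃ w : ℕ, w = ww t := ⟨_, rfl⟩
  obtain ⟨H, hH⟩ : ∃ H : ℕ, H = HH t := ⟨_, rfl⟩
  rw [← hw, ← hH] at hwin' hmert' ⊢
  have hHw : H = w ^ 206 := by rw [hH, hw]; rfl
  have hw2 : 2 ≤ w := by
    rw [hw]
    unfold ww
    calc 2 = 2 ^ 1 := by norm_num
      _ ≤ 2 ^ 2 ^ t := Nat.pow_le_pow_right (by norm_num) Nat.one_le_two_pow
  have hwH : w ≤ H := by
    rw [hHw]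
    calc w = w ^ 1 := (pow_one w).symm
      _ ≤ w ^ 206 := Nat.pow_le_pow_right (by omega) (by norm_num)
  have hwwH : w * w ≤ H := by
    rw [hHw]
    calc w * w = w ^ 2 := (sq w).symm
      _ ≤ w ^ 206 := Nat.pow_le_pow_right (by omega) (by norm_num)
  have hwr : (0 : ℝ) < (w : ℝ) := by exact_mod_cast (by omega : 0 < w)
  have hHr : (0 : ℝ) < (H : ℝ) := by exact_mod_cast (by omega : 0 < H)
  have hwHr : (w : ℝ) ≤ H := by exact_mod_cast hwH
  have hwwHr : (w : ℝ) * w ≤ H := by exact_mod_cast hwwH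
  obtain ⟨lam, hlam⟩ : ∃ lam : ℝ, lam = 1 / ((H : ℝ) / w + 1) := ⟨_, rfl⟩
  have hden : (0 : ℝ) < (H : ℝ) / w + 1 := by positivity
  have hlam0 : 0 < lam := by rw [hlam]; positivity
  have hlam1 : lam * ((H : ℝ) / w + 1) ≤ 1 := by
    rw [hlam, one_div, inv_mul_cancel₀ hden.ne']
  have hlamw : lam * w ≤ 1 := by
    have h1 : (w : ℝ) ≤ (H : ℝ) / w + 1 := by
      have : (w : ℝ) ≤ (H : ℝ) / w := by rw [le_div_iff₀ hwr]; exact hwwHr
      linarith
    calc lam * w ≤ lam * ((H : ℝ) / w + 1) := mul_le_mul_of_nonneg_left h1 hlam0.le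
      _ ≤ 1 := hlam1
  have hlamH : (w : ℝ) / (2 * H) ≤ lam := by
    rw [hlam, div_le_div_iff₀ (by positivity) hden]
    have h1 : (1 : ℝ) ≤ (H : ℝ) / w := by rw [le_div_iff₀ hwr, one_mul]; exact hwHr
    have h2 : (w : ℝ) * ((H : ℝ) / w + 1) = H + w := by field_simp
    rw [h2]
    linarith
  -- the exponential sum over one class
  have hclass : ∀ v : ℕ, ∑ c ∈ (range (primorial H)).filter (fun c => c ≡ v [MOD primorial w]),
      Real.exp (-(lam * ((surv (prs 0 H) H c).card : ℝ))) ≤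
      (∏ p ∈ prs w H, (p : ℝ)) * Real.exp (-(c1 * c2 / 2 * w / 2 ^ t)) := by
    intro v
    have h1 := exp_moment w H hw2 lam hlam0.le hlam1 (prs w H)
      (fun p hp => by rw [mem_prs] at hp; exact ⟨hp.2.2, hp.1⟩) (primorial w) v (primorial_pos w)
      (fun p hp => by
        rw [mem_prs] at hp
        rw [Nat.coprime_comm, hp.2.2.coprime_iff_not_dvd, dvd_primorial_iff hp.2.2]
        omega) (surv (prs 0 w) H v) (filter_subset _ _)
    rw [← badcls_primorial w H hwH] at h1
    have h2 : ∑ c ∈ (range (primorial H)).filter (fun c => c ≡ v [MOD primorial w]),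
        Real.exp (-(lam * ((surv (prs 0 H) H c).card : ℝ))) =
        ∑ c ∈ (range (primorial H)).filter (fun c => c ≡ v [MOD primorial w]),
        Real.exp (-(lam * (((surv (prs 0 w) H v).filter fun h => ∀ p ∈ prs w H, ¬ p ∣ c + h).card
          : ℝ))) := by
      refine sum_congr rfl fun c hc => ?_
      rw [mem_filter] at hc
      rw [badcls_surv w H c v hwH hc.2]
    rw [h2]
    refine h1.trans ?_
    refine mul_le_mul_of_nonneg_left ?_ (prod_nonneg fun p _ => Nat.cast_nonneg p)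
    rw [Real.exp_le_exp, neg_le_neg_iff]
    have h3 := hwin' v
    have h4 : c1 * c2 / 2 * w / 2 ^ t = (w : ℝ) / (2 * H) * c2 * (c1 * H / 2 ^ t) := by
      field_simp
    rw [h4]
    refine mul_le_mul ?_ h3 (by positivity) ?_
    · exact mul_le_mul hlamH hmert' hc2.le hlam0.le
    · exact mul_nonneg hlam0.le (hc2.le.trans hmert')
  -- sum over all classes
  have hsum : ∑ c ∈ range (primorial H), Real.exp (-(lam * ((surv (prs 0 H) H c).card : ℝ))) ≤
      (primorial H : ℝ) * Real.exp (-(c1 * c2 / 2 * w / 2 ^ t)) := by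
    have h1 : ∀ c ∈ range (primorial H), c % primorial w ∈ range (primorial w) := by
      intro c _
      rw [mem_range]
      exact Nat.mod_lt _ (primorial_pos w)
    rw [← sum_fiberwise_of_maps_to h1]
    have h2 : ∀ v ∈ range (primorial w),
        ∑ c ∈ (range (primorial H)).filter (fun c => c % primorial w = v),
          Real.exp (-(lam * ((surv (prs 0 H) H c).card : ℝ))) ≤
        (∏ p ∈ prs w H, (p : ℝ)) * Real.exp (-(c1 * c2 / 2 * w / 2 ^ t)) := by
      intro v hv
      rw [mem_range] at hv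
      have h3 : ((range (primorial H)).filter (fun c => c % primorial w = v)) =
          (range (primorial H)).filter (fun c => c ≡ v [MOD primorial w]) := by
        refine filter_congr fun c _ => ?_
        unfold Nat.ModEq
        rw [Nat.mod_eq_of_lt hv]
      rw [h3]
      exact hclass v
    refine (sum_le_sum h2).trans ?_
    rw [sum_const, card_range, nsmul_eq_mul, badcls_primorial w H hwH]
    push_cast
    rw [mul_assoc]
  -- Markov
  have hmarkov : (((range (primorial H)).filter fun v =>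
      (surv (prs 0 H) H v).card < w).card : ℝ) * Real.exp (-1) ≤
      ∑ c ∈ range (primorial H), Real.exp (-(lam * ((surv (prs 0 H) H c).card : ℝ))) := by
    rw [← nsmul_eq_mul, ← sum_const]
    refine le_trans (sum_le_sum (g := fun c =>
      Real.exp (-(lam * ((surv (prs 0 H) H c).card : ℝ)))) fun c hc => ?_)
      (sum_le_sum_of_subset_of_nonneg (filter_subset _ _) fun _ _ _ => (Real.exp_pos _).le)
    rw [mem_filter] at hc
    rw [Real.exp_le_exp, neg_le_neg_iff]
    refine le_trans (mul_le_mul_of_nonneg_left ?_ hlam0.le) hlamw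
    exact_mod_cast hc.2.le
  have he : Real.exp (-1) * Real.exp 1 = 1 := by
    rw [← Real.exp_add]
    simp
  have he3 : Real.exp 1 ≤ 3 := by
    have := Real.exp_one_lt_d9
    linarith
  have hfin : (((range (primorial H)).filter fun v =>
      (surv (prs 0 H) H v).card < w).card : ℝ) =
      ((((range (primorial H)).filter fun v =>
      (surv (prs 0 H) H v).card < w).card : ℝ) * Real.exp (-1)) * Real.exp 1 := by
    rw [mul_assoc, he, mul_one]
  rw [hfin]
  have h5 := hmarkov.trans hsum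
  have h6 : (0 : ℝ) ≤ (primorial H : ℝ) * Real.exp (-(c1 * c2 / 2 * w / 2 ^ t)) := by positivity
  calc _ ≤ ((primorial H : ℝ) * Real.exp (-(c1 * c2 / 2 * w / 2 ^ t))) * Real.exp 1 :=
        mul_le_mul_of_nonneg_right h5 (Real.exp_pos _).le
    _ ≤ ((primorial H : ℝ) * Real.exp (-(c1 * c2 / 2 * w / 2 ^ t))) * 3 :=
        mul_le_mul_of_nonneg_left he3 h6
    _ = _ := by ring

end Pool.Agent.Lib.MP_e3f158_nt.G
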