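import Pool.Agent.Lib.MP_e3f158_nt.G.Defs
import Pool.Agent.Lib.MP_e3f158_nt.Brun

/-!
# MP_e3f158_nt, gaps: two-sided pure sieve in a residue class (module GP-Brun2)
-/

set_option autoImplicit false

namespace Pool.Agent.Lib.MP_e3f158_nt.G

open Finset

/-- Bonferroni's inequalities, both signs. -/
private theorem brun2_bonf (e R : ℕ) :
    |(if e = 0 then (1 : ℝ) else 0) - ∑ k ∈ range R, (-1 : ℝ) ^ k * (e.choose k : ℝ)| ≤
      (e.choose R : ℝ) := by
  rcases Nat.eq_zero_or_pos R with hR | hR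
  · subst hR
    rw [range_zero, sum_empty, sub_zero, Nat.choose_zero_right]
    split_ifs <;> norm_num
  obtain ⟨r, rfl⟩ : ∃ r, R = r + 1 := ⟨R - 1, by omega⟩
  rcases Nat.eq_zero_or_pos e with h | h
  · subst h
    rw [sum_range_succ']
    simp
  · obtain ⟨n, rfl⟩ : ∃ n, e = n + 1 := ⟨e - 1, by omega⟩
    have h1 := Int.alternating_sum_range_choose_eq_choose (n := n) (m := r)
    have h2 : (∑ k ∈ range (r + 1), ((-1 : ℝ) ^ k * ((n + 1).choose k : ℝ))) =
        (-1) ^ r * ((n.choose r : ℕ) : ℝ) := by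
      have h3 : ((∑ k ∈ range (r + 1), ((-1) ^ k * (n + 1).choose k : ℤ) : ℤ) : ℝ) =
          (((-1) ^ r * n.choose r : ℤ) : ℝ) := by rw [h1]
      push_cast at h3
      exact h3
    rw [h2, if_neg (by omega), zero_sub, abs_neg, abs_mul, abs_pow, abs_neg, abs_one, one_pow,
      one_mul, abs_of_nonneg (by positivity)]
    rw [Nat.choose_succ_succ]
    push_cast
    have : (0 : ℝ) ≤ (n.choose (r + 1) : ℝ) := by positivity
    linarith

/-- HINT: for `m` let `e = #{p ∈ P : ∃ h ∈ U, p ∣ m + h}`. Then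
`|1[e = 0] - ∑_{k < R} (-1)^k choose e k| ≤ choose e R`
(`Int.alternating_sum_range_choose_eq_choose`; the sum is `± choose (e-1) (R-1)` for `e ≥ 1`).
`choose e k = ∑_{D ⊆ P, |D| = k} 1[∀ p ∈ D, ∃ h ∈ U, p ∣ m + h]`; count with `card_div`
(file `Brun.lean`, same namespace `Pool.Agent.Lib.MP_e3f158_nt`), which gives
`N/M * ∏_{p ∈ D} |U|/p + O(|U|^k)`. The tail `∑_{|D| ≥ R} ∏_{p ∈ D} |U|/p` is at most
`exp(-R) * ∏ (1 + e |U| / p) ≤ exp(3 |U| σ - R)`. The theorem `brun` in `Brun.lean` is the one-sided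
version for `M = 1`: copy its proof. -/
theorem brun2 (N w : ℕ) (U : Finset ℕ) (hU : ∀ h ∈ U, h ≤ w) (P : Finset ℕ)
    (hP : ∀ p ∈ P, p.Prime ∧ w < p) (M v : ℕ) (hM : 0 < M) (hcop : ∀ p ∈ P, Nat.Coprime M p)
    (R : ℕ) :
    |(((range N).filter fun m => m ≡ v [MOD M] ∧ ∀ h ∈ U, ∀ p ∈ P, ¬ p ∣ m + h).card : ℝ) -
      (N : ℝ) / M * ∏ p ∈ P, (1 - (U.card : ℝ) / p)| ≤
      (N : ℝ) / M * (2 * Real.exp (3 * U.card * (∑ p ∈ P, (1 : ℝ) / p) - R)) +
        (1 + (U.card : ℝ) * P.card) ^ R := by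
  classical
  set j : ℝ := (U.card : ℝ) with hj
  set σ : ℝ := ∑ p ∈ P, (1 : ℝ) / p with hσ
  have hj0 : 0 ≤ j := by positivity
  have hMr : (0 : ℝ) < M := by exact_mod_cast hM
  have hX0 : (0 : ℝ) ≤ (N : ℝ) / M := by positivity
  set X : ℝ := (N : ℝ) / M with hX
  have hx0 : ∀ p ∈ P, 0 ≤ j / p := fun p _ => by positivity
  have hsx : j * σ = ∑ p ∈ P, j / p := by
    rw [hσ, mul_sum]
    exact sum_congr rfl fun p _ => by ring
  have hs0 : 0 ≤ j * σ := by rw [hsx]; exact sum_nonneg hx0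
  -- the counting function
  let E : ℕ → Finset ℕ := fun m => P.filter fun p => ∃ h ∈ U, p ∣ m + h
  let A : Finset ℕ := (range N).filter fun m => m ≡ v [MOD M]
  have hA : (((range N).filter fun m => m ≡ v [MOD M] ∧ ∀ h ∈ U, ∀ p ∈ P, ¬ p ∣ m + h).card : ℝ) =
      ∑ m ∈ A, if (E m).card = 0 then (1 : ℝ) else 0 := by
    rw [← Finset.sum_filter, sum_const, nsmul_eq_mul, mul_one]
    congr 2
    ext m
    simp only [A, E, mem_filter, card_eq_zero, filter_eq_empty_iff]
    constructor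
    · rintro ⟨h1, h2, h3⟩
      refine ⟨⟨h1, h2⟩, fun p hp => ?_⟩
      push Not
      exact fun h hh => h3 h hh p hp
    · rintro ⟨⟨h1, h2⟩, h3⟩
      refine ⟨h1, h2, fun h hh p hp hd => ?_⟩
      exact h3 hp ⟨h, hh, hd⟩
  have h2 : ∀ k, ∑ m ∈ A, ((E m).card.choose k : ℝ) =
      ∑ D ∈ P.powersetCard k, (((range N).filter fun m => m ≡ v [MOD M] ∧
        ∀ p ∈ D, ∃ h ∈ U, p ∣ m + h).card : ℝ) := by
    intro k
    have h3 : ∀ m ∈ A, ((E m).card.choose k : ℝ) =
        ∑ D ∈ P.powersetCard k, if (∀ p ∈ D, ∃ h ∈ U, p ∣ m + h) then (1 : ℝ) else 0 := by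
      intro m _
      rw [← card_powersetCard, ← Finset.sum_filter, sum_const, nsmul_eq_mul, mul_one]
      congr 2
      ext D
      simp only [mem_powersetCard, mem_filter, E]
      constructor
      · rintro ⟨h4, h5⟩
        refine ⟨⟨fun p hp => (mem_filter.1 (h4 hp)).1, h5⟩, fun p hp => (mem_filter.1 (h4 hp)).2⟩
      · rintro ⟨⟨h4, h5⟩, h6⟩
        exact ⟨fun p hp => mem_filter.2 ⟨h4 hp, h6 p hp⟩, h5⟩
    rw [sum_congr rfl h3, sum_comm]
    refine sum_congr rfl fun D _ => ?_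
    rw [← Finset.sum_filter, sum_const, nsmul_eq_mul, mul_one, filter_filter]
  -- counts
  have hPD : ∀ k, ∀ D ∈ P.powersetCard k, ∀ p ∈ D, p.Prime ∧ w < p := by
    intro k D hD p hp
    exact hP p ((mem_powersetCard.1 hD).1 hp)
  have hcount : ∀ k, ∀ D ∈ P.powersetCard k,
      |(((range N).filter fun m => m ≡ v [MOD M] ∧ ∀ p ∈ D, ∃ h ∈ U, p ∣ m + h).card : ℝ) -
        X * ∏ p ∈ D, (j / (p : ℝ))| ≤ j ^ k := by
    intro k D hD
    have h5 := card_div N w U hU D (hPD k D hD) M v hM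
      (fun p hp => hcop p ((mem_powersetCard.1 hD).1 hp))
    have h6 : D.card = k := (mem_powersetCard.1 hD).2
    rw [← hj, h6] at h5
    have h7 : X * ∏ p ∈ D, (j / (p : ℝ)) = (N : ℝ) * j ^ k / (M * ∏ p ∈ D, (p : ℝ)) := by
      rw [prod_div_distrib, prod_const, h6, hX, div_mul_div_comm]
    rw [h7]
    exact h5
  set T : ℕ → ℝ := fun k => ∑ D ∈ P.powersetCard k, ∏ p ∈ D, (j / (p : ℝ)) with hT
  have hS : ∀ k, |∑ m ∈ A, ((E m).card.choose k : ℝ) - X * T k| ≤ (P.card.choose k : ℝ) * j ^ k := by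
    intro k
    rw [h2 k, hT]
    simp only
    rw [mul_sum, ← sum_sub_distrib]
    refine (abs_sum_le_sum_abs _ _).trans ?_
    refine (sum_le_sum (hcount k)).trans ?_
    rw [sum_const, card_powersetCard, nsmul_eq_mul]
  have hT0 : ∀ k, 0 ≤ T k := fun k => sum_nonneg fun D hD => prod_nonneg fun p hp =>
    hx0 p ((mem_powersetCard.1 hD).1 hp)
  -- first approximation
  have hB : |(∑ m ∈ A, if (E m).card = 0 then (1 : ℝ) else 0) -
      ∑ k ∈ range R, (-1 : ℝ) ^ k * ∑ m ∈ A, ((E m).card.choose k : ℝ)| ≤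
      ∑ m ∈ A, ((E m).card.choose R : ℝ) := by
    have : ∑ k ∈ range R, (-1 : ℝ) ^ k * ∑ m ∈ A, ((E m).card.choose k : ℝ) =
        ∑ m ∈ A, ∑ k ∈ range R, (-1 : ℝ) ^ k * ((E m).card.choose k : ℝ) := by
      rw [sum_comm]
      exact sum_congr rfl fun k _ => by rw [mul_sum]
    rw [this, ← sum_sub_distrib]
    refine (abs_sum_le_sum_abs _ _).trans ?_
    exact sum_le_sum fun m _ => brun2_bonf _ _
  -- second approximation
  have hC : |∑ k ∈ range R, (-1 : ℝ) ^ k * ∑ m ∈ A, ((E m).card.choose k : ℝ) -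
      X * ∑ k ∈ range R, (-1 : ℝ) ^ k * T k| ≤ ∑ k ∈ range R, (P.card.choose k : ℝ) * j ^ k := by
    rw [mul_sum, ← sum_sub_distrib]
    refine (abs_sum_le_sum_abs _ _).trans ?_
    refine sum_le_sum fun k _ => ?_
    have h5 : (-1 : ℝ) ^ k * ∑ m ∈ A, ((E m).card.choose k : ℝ) - X * ((-1 : ℝ) ^ k * T k) =
        (-1 : ℝ) ^ k * (∑ m ∈ A, ((E m).card.choose k : ℝ) - X * T k) := by ring
    rw [h5, abs_mul, abs_pow, abs_neg, abs_one, one_pow, one_mul]
    exact hS k
  -- error term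
  have herr : ∑ k ∈ range (R + 1), (P.card.choose k : ℝ) * j ^ k ≤
      (1 + j * P.card) ^ R := by
    rw [add_comm (1 : ℝ), add_pow]
    refine sum_le_sum fun k hk => ?_
    have hk' : k ≤ R := Nat.lt_succ_iff.1 (mem_range.1 hk)
    have h5 : (P.card.choose k : ℝ) ≤ (P.card : ℝ) ^ k := by
      exact_mod_cast Nat.choose_le_pow P.card k
    have h6 : (1 : ℝ) ≤ (R.choose k : ℝ) := by
      exact_mod_cast Nat.choose_pos hk'
    calc (P.card.choose k : ℝ) * j ^ k ≤ (P.card : ℝ) ^ k * j ^ k := by gcongr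
      _ = (j * P.card) ^ k * 1 ^ (R - k) * 1 := by rw [mul_pow]; ring
      _ ≤ (j * P.card) ^ k * 1 ^ (R - k) * (R.choose k : ℝ) := by gcongr
  -- the tail
  set Tail : ℝ := ∑ D ∈ P.powerset.filter (fun D => ¬ D.card < R), ∏ p ∈ D, (j / (p : ℝ))
    with hTail
  have hTail0 : Tail ≤ Real.exp (3 * j * σ - R) := by
    calc Tail ≤ ∑ D ∈ P.powerset.filter (fun D => ¬ D.card < R),
            Real.exp (-R) * ∏ p ∈ D, (Real.exp 1 * (j / (p : ℝ))) := by
            refine sum_le_sum fun D hD => ?_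
            have h10 : ¬ D.card < R := (mem_filter.1 hD).2
            have h11 : D ⊆ P := mem_powerset.1 (mem_filter.1 hD).1
            have h12 : 0 ≤ ∏ p ∈ D, (j / (p : ℝ)) := prod_nonneg fun p hp => hx0 p (h11 hp)
            rw [prod_mul_distrib, prod_const, ← Real.exp_nat_mul, ← mul_assoc, ← Real.exp_add]
            have h13 : (1 : ℝ) ≤ Real.exp (-R + D.card * 1) := by
              apply Real.one_le_exp
              have : (R : ℝ) ≤ D.card := by exact_mod_cast (by omega : R ≤ D.card)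
              linarith
            calc ∏ p ∈ D, (j / (p : ℝ)) = 1 * ∏ p ∈ D, (j / (p : ℝ)) := (one_mul _).symm
              _ ≤ _ := mul_le_mul_of_nonneg_right h13 h12
        _ ≤ ∑ D ∈ P.powerset, Real.exp (-R) * ∏ p ∈ D, (Real.exp 1 * (j / (p : ℝ))) := by
            refine sum_le_sum_of_subset_of_nonneg (filter_subset _ _) fun D hD _ => ?_
            have h11 : D ⊆ P := mem_powerset.1 hD
            have : 0 ≤ ∏ p ∈ D, (Real.exp 1 * (j / (p : ℝ))) :=
              prod_nonneg fun p hp => mul_nonneg (Real.exp_pos _).le (hx0 p (h11 hp))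
            positivity
        _ = Real.exp (-R) * ∏ p ∈ P, (1 + Real.exp 1 * (j / (p : ℝ))) := by
            rw [← mul_sum, prod_one_add]
        _ ≤ Real.exp (-R) * Real.exp (Real.exp 1 * (j * σ)) := by
            refine mul_le_mul_of_nonneg_left ?_ (Real.exp_pos _).le
            rw [hsx, mul_sum, Real.exp_sum]
            refine prod_le_prod (fun p hp => ?_) fun p hp => ?_
            · have := mul_nonneg (Real.exp_pos 1).le (hx0 p hp)
              linarith
            · have := Real.add_one_le_exp (Real.exp 1 * (j / (p : ℝ)))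
              linarith
        _ ≤ Real.exp (3 * j * σ - R) := by
            rw [← Real.exp_add, Real.exp_le_exp]
            have := Real.exp_one_lt_d9
            nlinarith
  have hTR : T R ≤ Tail := by
    rw [hTail, hT]
    refine sum_le_sum_of_subset_of_nonneg ?_ ?_
    · intro D hD
      rw [mem_powersetCard] at hD
      rw [mem_filter, mem_powerset]
      exact ⟨hD.1, by omega⟩
    · intro D hD _
      exact prod_nonneg fun p hp => hx0 p ((mem_powerset.1 (mem_filter.1 hD).1) hp)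
  have hmain : |∑ k ∈ range R, (-1 : ℝ) ^ k * T k - ∏ p ∈ P, (1 - j / (p : ℝ))| ≤ Tail := by
    have h5 : ∑ k ∈ range R, (-1 : ℝ) ^ k * T k =
        ∑ D ∈ P.powerset.filter (fun D => D.card < R), ∏ p ∈ D, (-(j / (p : ℝ))) := by
      rw [← sum_fiberwise_of_maps_to (s := P.powerset.filter (fun D => D.card < R))
        (t := range R) (g := fun D => D.card) (fun D hD => mem_range.2 (mem_filter.1 hD).2)]
      refine sum_congr rfl fun k hk => ?_
      rw [hT]
      simp only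
      rw [mul_sum]
      refine sum_congr ?_ ?_
      · ext D
        simp only [mem_powersetCard, mem_filter, mem_powerset]
        constructor
        · rintro ⟨h6, h7⟩
          exact ⟨⟨h6, by rw [h7]; exact mem_range.1 hk⟩, h7⟩
        · rintro ⟨⟨h6, _⟩, h7⟩
          exact ⟨h6, h7⟩
      · intro D hD
        have h7 : D.card = k := (mem_filter.1 hD).2
        rw [prod_neg, h7]
    have h6 : ∏ p ∈ P, (1 + -(j / (p : ℝ))) = ∑ D ∈ P.powerset, ∏ p ∈ D, (-(j / (p : ℝ))) :=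
      prod_one_add P
    have h7 := sum_filter_add_sum_filter_not P.powerset (fun D => D.card < R)
      (fun D => ∏ p ∈ D, (-(j / (p : ℝ))))
    have h8 : ∏ p ∈ P, (1 - j / (p : ℝ)) = ∏ p ∈ P, (1 + -(j / (p : ℝ))) :=
      prod_congr rfl fun p _ => by ring
    have h9 : |∑ D ∈ P.powerset.filter (fun D => ¬ D.card < R), ∏ p ∈ D, (-(j / (p : ℝ)))| ≤
        Tail := by
      refine (abs_sum_le_sum_abs _ _).trans ?_
      rw [hTail]
      refine sum_le_sum fun D hD => ?_
      have h11 : D ⊆ P := mem_powerset.1 (mem_filter.1 hD).1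
      rw [prod_neg, abs_mul, abs_pow, abs_neg, abs_one, one_pow, one_mul,
        abs_of_nonneg (prod_nonneg fun p hp => hx0 p (h11 hp))]
    rw [h5, h8, h6, ← h7, sub_add_eq_sub_sub, sub_self, zero_sub, abs_neg]
    exact h9
  -- conclusion
  rw [hA]
  have hR := hS R
  have e1 := (abs_le.1 hR).2
  have e2 : ∑ m ∈ A, ((E m).card.choose R : ℝ) ≤ X * T R + (P.card.choose R : ℝ) * j ^ R := by
    linarith
  have e3 : X * T R ≤ X * Real.exp (3 * j * σ - R) :=
    mul_le_mul_of_nonneg_left (hTR.trans hTail0) hX0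
  have e4 : |X * ∑ k ∈ range R, (-1 : ℝ) ^ k * T k - X * ∏ p ∈ P, (1 - j / (p : ℝ))| ≤
      X * Real.exp (3 * j * σ - R) := by
    rw [← mul_sub, abs_mul, abs_of_nonneg hX0]
    exact mul_le_mul_of_nonneg_left (hmain.trans hTail0) hX0
  rw [sum_range_succ] at herr
  have t1 := abs_sub_le (∑ m ∈ A, if (E m).card = 0 then (1 : ℝ) else 0)
    (∑ k ∈ range R, (-1 : ℝ) ^ k * ∑ m ∈ A, ((E m).card.choose k : ℝ))
    (X * ∏ p ∈ P, (1 - j / (p : ℝ)))
  have t2 := abs_sub_le (∑ k ∈ range R, (-1 : ℝ) ^ k * ∑ m ∈ A, ((E m).card.choose k : ℝ))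
    (X * ∑ k ∈ range R, (-1 : ℝ) ^ k * T k) (X * ∏ p ∈ P, (1 - j / (p : ℝ)))
  linarith

end Pool.Agent.Lib.MP_e3f158_nt.G
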