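import Mathlib

/-!
# MP_e3f158_nt, gaps between integers of type `(a, 0)`: definitions
-/

set_option autoImplicit false

namespace Pool.Agent.Lib.MP_e3f158_nt.G

open Finset

/-- The primes `p` with `a < p ≤ b`. -/
def prs (a b : ℕ) : Finset ℕ := (Ioc a b).filter Nat.Prime

/-- The shifts `h ∈ [1, H]` such that no prime of `P` divides `c + h`. -/
def surv (P : Finset ℕ) (H c : ℕ) : Finset ℕ := (Icc 1 H).filter fun h => ∀ p ∈ P, ¬ p ∣ c + h

/-- The scale `2 ^ (2 ^ t)`. -/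
def ww (t : ℕ) : ℕ := 2 ^ 2 ^ t

/-- The length of the windows. -/
def HH (t : ℕ) : ℕ := ww t ^ 206

theorem mem_prs {a b p : ℕ} : p ∈ prs a b ↔ a < p ∧ p ≤ b ∧ p.Prime := by
  unfold prs
  rw [mem_filter, mem_Ioc, and_assoc]

/-- `primorial n = n#` is the product of the primes in `(0, n]`. -/
theorem primorial_eq (n : ℕ) : primorial n = ∏ p ∈ prs 0 n, p := by
  rw [primorial]
  refine prod_congr ?_ fun _ _ => rfl
  ext p
  rw [mem_prs, mem_filter, mem_range]
  constructor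
  · rintro ⟨h1, h2⟩
    exact ⟨h2.pos, by omega, h2⟩
  · rintro ⟨_, h1, h2⟩
    exact ⟨by omega, h2⟩

theorem dvd_primorial_iff {p n : ℕ} (hp : p.Prime) : p ∣ primorial n ↔ p ≤ n := by
  rw [primorial_eq]
  constructor
  · intro h
    obtain ⟨q, hq, hpq⟩ := (Prime.dvd_finsetProd_iff hp.prime _).1 h
    rw [mem_prs] at hq
    rw [(Nat.prime_dvd_prime_iff_eq hp hq.2.2).1 hpq]
    exact hq.2.1
  · intro h
    exact dvd_prod_of_mem _ (mem_prs.2 ⟨hp.pos, h, hp⟩)

theorem coprime_primorial_iff {m n : ℕ} :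
    Nat.Coprime m (primorial n) ↔ ∀ p : ℕ, p.Prime → p ≤ n → ¬ p ∣ m := by
  constructor
  · intro h p hp hpn hpm
    exact Nat.not_coprime_of_dvd_of_dvd hp.one_lt hpm ((dvd_primorial_iff hp).2 hpn) h
  · intro h
    by_contra hc
    obtain ⟨p, hp, h1, h2⟩ := Nat.Prime.not_coprime_iff_dvd.1 hc
    exact h p hp ((dvd_primorial_iff hp).1 h2) h1

end Pool.Agent.Lib.MP_e3f158_nt.G
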