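import Pool.Agent.Lib.MP_e3f158_nt.G.Defs

/-!
# MP_e3f158_nt, gaps: exponential moment of the number of surviving shifts (module GP-ExpMom)
-/

set_option autoImplicit false

namespace Pool.Agent.Lib.MP_e3f158_nt.G

open Finset

/-- HINT: induction on `P` (for all `M`, `v`, `S`). For `insert p P` split the `c` according to
`a = c % p`: these `c` are one class mod `M * p` (chinese remainder theorem), and
`{h ∈ S : ∀ q ∈ insert p P, ¬ q ∣ c + h} = {h ∈ S_a : ∀ q ∈ P, ¬ q ∣ c + h}` with
`S_a = {h ∈ S : ¬ p ∣ a + h}`, `|S_a| = |S| - n_a`, `∑_{a < p} n_a = |S|`,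
`n_a ≤ H/p + 1 ≤ H/w + 1`. With `μ = lam * ∏_{q ∈ P} (1 - 2/q) ∈ [0, lam]`, `μ n_a ≤ 1`:
`exp (μ n_a) ≤ 1 + 2 μ n_a`, so
`∑_a exp (-μ |S_a|) ≤ exp (-μ |S|) (p + 2 μ |S|) ≤ p exp (-μ (1 - 2/p) |S|)`. -/
theorem exp_moment (w H : ℕ) (hw : 2 ≤ w) (lam : ℝ) (h0 : 0 ≤ lam)
    (h1 : lam * ((H : ℝ) / w + 1) ≤ 1) (P : Finset ℕ) (hP : ∀ p ∈ P, p.Prime ∧ w < p) :
    ∀ M v : ℕ, 0 < M → (∀ p ∈ P, Nat.Coprime M p) → ∀ S : Finset ℕ, S ⊆ Icc 1 H →
      ∑ c ∈ (range (M * ∏ p ∈ P, p)).filter (fun c => c ≡ v [MOD M]),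
        Real.exp (-(lam * ((S.filter fun h => ∀ p ∈ P, ¬ p ∣ c + h).card : ℝ))) ≤
      (∏ p ∈ P, (p : ℝ)) * Real.exp (-(lam * (∏ p ∈ P, (1 - 2 / (p : ℝ))) * S.card)) := by
  classical
  induction P using Finset.induction_on with
  | empty =>
    intro M v hM _ S _
    have hcard : ((range (M * ∏ p ∈ (∅ : Finset ℕ), p)).filter (fun c => c ≡ v [MOD M])) =
        {v % M} := by
      ext c
      simp only [prod_empty, mul_one, mem_filter, mem_range, mem_singleton]
      constructor
      · rintro ⟨h1, h2⟩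
        have := h2
        unfold Nat.ModEq at this
        rw [Nat.mod_eq_of_lt h1] at this
        exact this
      · rintro rfl
        exact ⟨Nat.mod_lt _ hM, Nat.mod_modEq _ _⟩
    rw [hcard, sum_singleton]
    simp
  | insert p P hpP ih =>
    intro M v hM hMc S hS
    have hpp : p.Prime := (hP p (mem_insert_self p P)).1
    have hwp : w < p := (hP p (mem_insert_self p P)).2
    have hP' : ∀ q ∈ P, q.Prime ∧ w < q := fun q hq => hP q (mem_insert_of_mem hq)
    have ih' := ih hP'
    have hMp : Nat.Coprime M p := hMc p (mem_insert_self p P)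
    have hp0 : 0 < p := hpp.pos
    have hpR : (0 : ℝ) < (p : ℝ) := by exact_mod_cast hp0
    have hw0 : (0 : ℝ) < (w : ℝ) := by exact_mod_cast (by omega : 0 < w)
    -- the factor
    obtain ⟨μ, hμ⟩ : ∃ μ : ℝ, μ = lam * ∏ q ∈ P, (1 - 2 / (q : ℝ)) := ⟨_, rfl⟩
    have hfac : ∀ q ∈ P, 0 ≤ 1 - 2 / (q : ℝ) ∧ 1 - 2 / (q : ℝ) ≤ 1 := by
      intro q hq
      have h2q : 2 < q := lt_of_le_of_lt hw (hP' q hq).2
      have hqR : (2 : ℝ) < (q : ℝ) := by exact_mod_cast h2q
      have hq0 : (0 : ℝ) < (q : ℝ) := by linarith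
      constructor
      · rw [sub_nonneg, div_le_one hq0]; exact hqR.le
      · have : 0 ≤ 2 / (q : ℝ) := by positivity
        linarith
    have hprod0 : 0 ≤ ∏ q ∈ P, (1 - 2 / (q : ℝ)) := prod_nonneg fun q hq => (hfac q hq).1
    have hprod1 : ∏ q ∈ P, (1 - 2 / (q : ℝ)) ≤ 1 :=
      prod_le_one (fun q hq => (hfac q hq).1) (fun q hq => (hfac q hq).2)
    have hμ0 : 0 ≤ μ := by rw [hμ]; exact mul_nonneg h0 hprod0
    have hμl : μ ≤ lam := by
      rw [hμ]
      exact mul_le_of_le_one_right h0 hprod1
    -- the sets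
    obtain ⟨Sa, hSa⟩ : ∃ Sa : ℕ → Finset ℕ, ∀ a, Sa a = S.filter fun h => ¬ p ∣ a + h :=
      ⟨fun a => S.filter fun h => ¬ p ∣ a + h, fun _ => rfl⟩
    obtain ⟨Na, hNa⟩ : ∃ Na : ℕ → Finset ℕ, ∀ a, Na a = S.filter fun h => p ∣ a + h :=
      ⟨fun a => S.filter fun h => p ∣ a + h, fun _ => rfl⟩
    have hcardSN : ∀ a, ((Sa a).card : ℝ) = (S.card : ℝ) - ((Na a).card : ℝ) := by
      intro a
      have := Finset.card_filter_add_card_filter_not (s := S) (fun h => p ∣ a + h)
      rw [hSa, hNa, ← this]
      push_cast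
      ring
    have hNle : ∀ a < p, ((Na a).card : ℝ) ≤ (H : ℝ) / w + 1 := by
      intro a ha
      have h1' : (Na a).card ≤ (Icc 1 ((a + H) / p)).card := by
        refine Finset.card_le_card_of_injOn (fun h => (a + h) / p) ?_ ?_
        · intro h hh
          rw [mem_coe, hNa, mem_filter] at hh
          have hhS := mem_Icc.1 (hS hh.1)
          rw [mem_coe, mem_Icc]
          refine ⟨?_, Nat.div_le_div_right (by omega)⟩
          exact (Nat.one_le_div_iff hp0).2 (Nat.le_of_dvd (by omega) hh.2)
        · intro h hh h' hh' he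
          rw [mem_coe, hNa, mem_filter] at hh hh'
          have e1 := Nat.div_mul_cancel hh.2
          have e2 := Nat.div_mul_cancel hh'.2
          have he' : (a + h) / p = (a + h') / p := he
          rw [he'] at e1
          omega
      rw [Nat.card_Icc, Nat.add_sub_cancel] at h1'
      have h2' : (Na a).card ≤ (a + H) / p := h1'
      have h3 : ((Na a).card : ℝ) ≤ (((a + H) / p : ℕ) : ℝ) := by exact_mod_cast h2'
      have h4 : (((a + H) / p : ℕ) : ℝ) ≤ ((a + H : ℕ) : ℝ) / p := Nat.cast_div_le
      have h5 : ((a + H : ℕ) : ℝ) / p ≤ (H : ℝ) / w + 1 := by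
        push_cast
        rw [add_div]
        have h6 : (a : ℝ) / p ≤ 1 := by
          rw [div_le_one hpR]; exact_mod_cast ha.le
        have h7 : (H : ℝ) / p ≤ (H : ℝ) / w := by
          apply div_le_div_of_nonneg_left (by positivity) hw0
          exact_mod_cast hwp.le
        linarith
      linarith
    have hNsum : ∑ a ∈ range p, ((Na a).card : ℝ) = (S.card : ℝ) := by
      have h1' : ∑ a ∈ range p, (Na a).card = S.card := by
        have : ∀ a ∈ range p, (Na a).card = ∑ h ∈ S, if p ∣ a + h then 1 else 0 := by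
          intro a _
          rw [hNa, card_filter]
        rw [sum_congr rfl this, sum_comm]
        have h2' : ∀ h ∈ S, ∑ a ∈ range p, (if p ∣ a + h then 1 else 0) = 1 := by
          intro h _
          rw [← card_filter, card_eq_one]
          refine ⟨(p - h % p) % p, ?_⟩
          ext a
          rw [mem_filter, mem_range, mem_singleton]
          have hm : h % p < p := Nat.mod_lt _ hp0
          constructor
          · rintro ⟨ha, hd⟩
            have hd' : (a + h % p) % p = 0 := by
              have := Nat.mod_eq_zero_of_dvd hd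
              rw [Nat.add_mod] at this ⊢
              rwa [Nat.mod_mod]
            rcases Nat.eq_zero_or_pos (h % p) with h0' | h0'
            · rw [h0', Nat.sub_zero, Nat.mod_self]
              rw [h0', add_zero, Nat.mod_eq_of_lt ha] at hd'
              exact hd'
            · rw [Nat.mod_eq_of_lt (by omega)]
              obtain ⟨k, hk⟩ := Nat.dvd_of_mod_eq_zero hd'
              have hk1 : k = 1 := by
                have hlt : p * k < p * 2 := by omega
                have := Nat.lt_of_mul_lt_mul_left hlt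
                have hk0 : k ≠ 0 := by
                  rintro rfl
                  omega
                omega
              rw [hk1] at hk
              omega
          · rintro rfl
            refine ⟨Nat.mod_lt _ hp0, ?_⟩
            rcases Nat.eq_zero_or_pos (h % p) with h0' | h0'
            · rw [h0', Nat.sub_zero, Nat.mod_self, zero_add]
              exact Nat.dvd_of_mod_eq_zero h0'
            · rw [Nat.mod_eq_of_lt (by omega)]
              have := Nat.div_add_mod h p
              refine ⟨h / p + 1, ?_⟩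
              rw [mul_add, mul_one]
              omega
        rw [sum_congr rfl h2']
        simp
      exact_mod_cast h1'
    -- the key inequality
    have hkey : ∑ a ∈ range p, Real.exp (-(μ * ((Sa a).card : ℝ))) ≤
        (p : ℝ) * Real.exp (-(μ * (1 - 2 / (p : ℝ)) * (S.card : ℝ))) := by
      have h1' : ∀ a ∈ range p, Real.exp (-(μ * ((Sa a).card : ℝ))) ≤
          Real.exp (-(μ * (S.card : ℝ))) * (1 + 2 * μ * ((Na a).card : ℝ)) := by
        intro a ha
        have hN0 : 0 ≤ μ * ((Na a).card : ℝ) := by positivity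
        have hN1 : μ * ((Na a).card : ℝ) ≤ 1 := by
          calc μ * ((Na a).card : ℝ) ≤ lam * ((H : ℝ) / w + 1) :=
                mul_le_mul hμl (hNle a (mem_range.1 ha)) (by positivity) h0
            _ ≤ 1 := h1
        have he : Real.exp (μ * ((Na a).card : ℝ)) ≤ 1 + 2 * (μ * ((Na a).card : ℝ)) := by
          have := Real.abs_exp_sub_one_le (x := μ * ((Na a).card : ℝ))
            (by rw [abs_of_nonneg hN0]; exact hN1)
          rw [abs_of_nonneg hN0] at this
          have := (abs_le.1 this).2
          linarith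
        have heq : Real.exp (-(μ * ((Sa a).card : ℝ))) =
            Real.exp (-(μ * (S.card : ℝ))) * Real.exp (μ * ((Na a).card : ℝ)) := by
          rw [← Real.exp_add, hcardSN]
          congr 1
          ring
        rw [heq]
        have := mul_le_mul_of_nonneg_left he (Real.exp_nonneg (-(μ * (S.card : ℝ))))
        calc _ ≤ _ := this
          _ = _ := by ring
      calc ∑ a ∈ range p, Real.exp (-(μ * ((Sa a).card : ℝ)))
          ≤ ∑ a ∈ range p, Real.exp (-(μ * (S.card : ℝ))) * (1 + 2 * μ * ((Na a).card : ℝ)) :=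
            sum_le_sum h1'
        _ = Real.exp (-(μ * (S.card : ℝ))) * ((p : ℝ) + 2 * μ * (S.card : ℝ)) := by
            rw [← mul_sum, sum_add_distrib, ← mul_sum, hNsum]
            simp
        _ = (p : ℝ) * (Real.exp (-(μ * (S.card : ℝ))) * (2 * μ * (S.card : ℝ) / p + 1)) := by
            field_simp
            ring
        _ ≤ (p : ℝ) * (Real.exp (-(μ * (S.card : ℝ))) *
            Real.exp (2 * μ * (S.card : ℝ) / p)) := by
            have := Real.add_one_le_exp (2 * μ * (S.card : ℝ) / p)
            gcongr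
        _ = (p : ℝ) * Real.exp (-(μ * (1 - 2 / (p : ℝ)) * (S.card : ℝ))) := by
            rw [← Real.exp_add]
            congr 2
            field_simp
            ring
    -- splitting the sum
    obtain ⟨F, hF⟩ : ∃ F : ℕ → ℝ, ∀ c, F c =
        Real.exp (-(lam * ((S.filter fun h => ∀ q ∈ insert p P, ¬ q ∣ c + h).card : ℝ))) :=
      ⟨_, fun _ => rfl⟩
    have hsplit : ∑ c ∈ (range (M * ∏ q ∈ insert p P, q)).filter (fun c => c ≡ v [MOD M]), F c =
        ∑ a ∈ range p, ∑ c ∈ ((range (M * ∏ q ∈ insert p P, q)).filter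
          (fun c => c ≡ v [MOD M])).filter (fun c => c % p = a), F c := by
      rw [sum_fiberwise_of_maps_to]
      intro c _
      exact mem_range.2 (Nat.mod_lt _ hp0)
    have hinner : ∀ a ∈ range p, ∑ c ∈ ((range (M * ∏ q ∈ insert p P, q)).filter
          (fun c => c ≡ v [MOD M])).filter (fun c => c % p = a), F c ≤
        (∏ q ∈ P, (q : ℝ)) * Real.exp (-(μ * ((Sa a).card : ℝ))) := by
      intro a ha
      have hap : a < p := mem_range.1 ha
      obtain ⟨u, hu1, hu2⟩ : ∃ u, u ≡ v [MOD M] ∧ u ≡ a [MOD p] :=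
        ⟨(Nat.chineseRemainder hMp v a).1, (Nat.chineseRemainder hMp v a).2⟩
      have hset : ((range (M * ∏ q ∈ insert p P, q)).filter
          (fun c => c ≡ v [MOD M])).filter (fun c => c % p = a) =
          (range ((M * p) * ∏ q ∈ P, q)).filter (fun c => c ≡ u [MOD (M * p)]) := by
        ext c
        rw [mem_filter, mem_filter, mem_filter, prod_insert hpP, mul_assoc]
        rw [← Nat.modEq_and_modEq_iff_modEq_mul hMp, and_assoc]
        refine and_congr_right fun _ => ?_
        constructor
        · rintro ⟨h1', h2'⟩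
          refine ⟨h1'.trans hu1.symm, ?_⟩
          have : c ≡ a [MOD p] := by
            unfold Nat.ModEq
            rw [h2', Nat.mod_eq_of_lt hap]
          exact this.trans hu2.symm
        · rintro ⟨h1', h2'⟩
          refine ⟨h1'.trans hu1, ?_⟩
          have := h2'.trans hu2
          unfold Nat.ModEq at this
          rwa [Nat.mod_eq_of_lt hap] at this
      rw [hset]
      have hI := ih' (M * p) u (Nat.mul_pos hM hp0) (by
        intro q hq
        refine Nat.Coprime.mul_left (hMc q (mem_insert_of_mem hq)) ?_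
        refine (Nat.coprime_primes hpp (hP' q hq).1).2 ?_
        rintro rfl
        exact hpP hq) (Sa a) (by
          rw [hSa]; exact (filter_subset _ _).trans hS)
      rw [← hμ] at hI
      refine le_trans (le_of_eq ?_) hI
      refine sum_congr rfl fun c hc => ?_
      rw [hF]
      have hcu : c ≡ a [MOD p] := by
        have := (mem_filter.1 hc).2
        rw [← Nat.modEq_and_modEq_iff_modEq_mul hMp] at this
        exact this.2.trans hu2
      have hfe : (S.filter fun h => ∀ q ∈ insert p P, ¬ q ∣ c + h) =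
          (Sa a).filter fun h => ∀ q ∈ P, ¬ q ∣ c + h := by
        rw [hSa, filter_filter]
        refine filter_congr fun h _ => ?_
        have hpe : (p ∣ c + h) ↔ (p ∣ a + h) := by
          have : c + h ≡ a + h [MOD p] := Nat.ModEq.add_right h hcu
          exact this.dvd_iff (dvd_refl p)
        constructor
        · intro hh
          exact ⟨fun hd => hh p (mem_insert_self p P) (hpe.2 hd),
            fun q hq => hh q (mem_insert_of_mem hq)⟩
        · rintro ⟨hh1, hh2⟩ q hq
          rcases mem_insert.1 hq with rfl | hq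
          · exact fun hd => hh1 (hpe.1 hd)
          · exact hh2 q hq
      rw [hfe]
    have hFsum : ∑ c ∈ (range (M * ∏ q ∈ insert p P, q)).filter (fun c => c ≡ v [MOD M]),
        Real.exp (-(lam * ((S.filter fun h => ∀ q ∈ insert p P, ¬ q ∣ c + h).card : ℝ))) =
        ∑ c ∈ (range (M * ∏ q ∈ insert p P, q)).filter (fun c => c ≡ v [MOD M]), F c :=
      sum_congr rfl fun c _ => (hF c).symm
    rw [hFsum, hsplit]
    have hPpos : (0 : ℝ) ≤ ∏ q ∈ P, (q : ℝ) := prod_nonneg fun q _ => by positivity
    calc _ ≤ ∑ a ∈ range p, (∏ q ∈ P, (q : ℝ)) * Real.exp (-(μ * ((Sa a).card : ℝ))) :=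
          sum_le_sum hinner
      _ = (∏ q ∈ P, (q : ℝ)) * ∑ a ∈ range p, Real.exp (-(μ * ((Sa a).card : ℝ))) := by
          rw [mul_sum]
      _ ≤ (∏ q ∈ P, (q : ℝ)) *
          ((p : ℝ) * Real.exp (-(μ * (1 - 2 / (p : ℝ)) * (S.card : ℝ)))) :=
          mul_le_mul_of_nonneg_left hkey hPpos
      _ = (∏ q ∈ insert p P, (q : ℝ)) *
          Real.exp (-(lam * (∏ q ∈ insert p P, (1 - 2 / (q : ℝ))) * S.card)) := by
          rw [prod_insert hpP, prod_insert hpP, hμ]
          have : lam * (∏ q ∈ P, (1 - 2 / (q : ℝ))) * (1 - 2 / (p : ℝ)) * (S.card : ℝ) =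
              lam * ((1 - 2 / (p : ℝ)) * ∏ q ∈ P, (1 - 2 / (q : ℝ))) * (S.card : ℝ) := by ring
          rw [this]
          ring

end Pool.Agent.Lib.MP_e3f158_nt.G
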