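import Pool.Agent.Lib.MP_e3f158_nt.G.Killed

/-!
# MP_e3f158_nt, gaps: windows without rough numbers, finite form (module GP-RgFin)
-/

set_option autoImplicit false

namespace Pool.Agent.Lib.MP_e3f158_nt.G

open Finset

private theorem card_class (N Q v : ℕ) :
    (((range N).filter fun m => m % Q = v).card : ℝ) ≤ (N : ℝ) / Q + 1 := by
  have h1 : ((range N).filter fun m => m % Q = v).card ≤ N / Q + 1 := by
    have h2 : ((range N).filter fun m => m % Q = v).card ≤ (range (N / Q + 1)).card := by
      refine card_le_card_of_injOn (fun m => m / Q) ?_ ?_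
      · intro m hm
        rw [coe_filter, Set.mem_ofPred_eq, mem_range] at hm
        rw [coe_range, Set.mem_Iio]
        exact Nat.lt_succ_of_le (Nat.div_le_div_right hm.1.le)
      · intro a ha b hb hab
        rw [coe_filter, Set.mem_ofPred_eq] at ha hb
        have h3 := Nat.div_add_mod a Q
        have h4 := Nat.div_add_mod b Q
        have h5 : a / Q = b / Q := hab
        rw [ha.2] at h3
        rw [hb.2] at h4
        rw [h5] at h3
        omega
    rwa [card_range] at h2
  have h3 : ((N / Q : ℕ) : ℝ) ≤ (N : ℝ) / Q := Nat.cast_div_le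
  calc (((range N).filter fun m => m % Q = v).card : ℝ) ≤ ((N / Q + 1 : ℕ) : ℝ) := by
        exact_mod_cast h1
    _ = ((N / Q : ℕ) : ℝ) + 1 := by push_cast; ring
    _ ≤ (N : ℝ) / Q + 1 := by linarith

private theorem prod_le_one' (P : Finset ℕ) (hP : ∀ p ∈ P, 0 < p) :
    ∏ p ∈ P, (1 - 1 / (p : ℝ)) ≤ 1 := by
  refine prod_le_one ?_ ?_
  · intro p hp
    have h1 : (1 : ℝ) ≤ p := by exact_mod_cast hP p hp
    have h2 : 1 / (p : ℝ) ≤ 1 := by
      rw [div_le_one (by linarith)]
      exact h1
    linarith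
  · intro p _
    have h2 : 0 ≤ 1 / (p : ℝ) := by positivity
    linarith

/-- HINT: `Q = primorial (HH t)`, split `m < N` according to `c = m % Q`. The `m` with `c` in the bad
set number at most `(N/Q + 1) * #bad`. For the other `c` choose `T ⊆ surv (prs 0 H) H c` with
`|T| = ww t` (`Finset.exists_subset_card_eq`); if all `m + h`, `h ∈ [1, H]`, have a common prime
with `primorial z`, then for `h ∈ T` the number `m + h` is divisible by a prime of `prs H z`
(it is coprime to `Q` because `c + h` is); use `all_killed` with `M = Q`, `P = prs H z`,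
`|prs H z| ≤ z`. -/
theorem rg_fin (N t z R : ℕ) (hz : HH t ≤ z) :
    (((range N).filter fun m => ∀ h ∈ Icc 1 (HH t), ¬ Nat.Coprime (m + h) (primorial z)).card : ℝ) ≤
      ((N : ℝ) / primorial (HH t) + 1) * (((range (primorial (HH t))).filter fun v =>
        (surv (prs 0 (HH t)) (HH t) v).card < ww t).card : ℝ) +
      (primorial (HH t) : ℝ) * ((N : ℝ) / primorial (HH t) *
          (1 - ∏ p ∈ prs (HH t) z, (1 - 1 / (p : ℝ))) ^ ww t +
        2 ^ ww t * ((N : ℝ) / primorial (HH t) *
            (2 * Real.exp (3 * ww t * (∑ p ∈ prs (HH t) z, (1 : ℝ) / p) - R)) +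
          (1 + (ww t : ℝ) * z) ^ R)) := by
  classical
  set H := HH t with hH
  set w := ww t with hw
  set Q := primorial H with hQ
  have hQpos : 0 < Q := primorial_pos H
  set A : Finset ℕ := (range N).filter fun m => ∀ h ∈ Icc 1 H, ¬ Nat.Coprime (m + h) (primorial z)
    with hA
  set bad : Finset ℕ := (range Q).filter fun v => (surv (prs 0 H) H v).card < w with hbad
  set E : ℝ := (N : ℝ) / Q * (1 - ∏ p ∈ prs H z, (1 - 1 / (p : ℝ))) ^ w +
        2 ^ w * ((N : ℝ) / Q * (2 * Real.exp (3 * w * (∑ p ∈ prs H z, (1 : ℝ) / p) - R)) +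
          (1 + (w : ℝ) * z) ^ R) with hE
  have hprod : ∏ p ∈ prs H z, (1 - 1 / (p : ℝ)) ≤ 1 :=
    prod_le_one' _ fun p hp => (mem_prs.1 hp).2.2.pos
  have hE0 : 0 ≤ E := by
    have h1 : 0 ≤ 1 - ∏ p ∈ prs H z, (1 - 1 / (p : ℝ)) := by linarith
    positivity
  -- split
  have hsplit : (A.card : ℝ) = ∑ v ∈ range Q, ((A.filter fun m => m % Q = v).card : ℝ) := by
    have := card_eq_sum_card_fiberwise (f := fun m : ℕ => m % Q) (s := A) (t := range Q)
      (fun m _ => by
        rw [coe_range, Set.mem_Iio]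
        exact Nat.mod_lt _ hQpos)
    rw [this]
    push_cast
    rfl
  have hbadb : ∀ v ∈ bad, ((A.filter fun m => m % Q = v).card : ℝ) ≤ (N : ℝ) / Q + 1 := by
    intro v _
    refine le_trans ?_ (card_class N Q v)
    have : (A.filter fun m => m % Q = v).card ≤ ((range N).filter fun m => m % Q = v).card := by
      refine card_le_card ?_
      intro m hm
      rw [mem_filter] at hm ⊢
      exact ⟨(mem_filter.1 hm.1).1, hm.2⟩
    exact_mod_cast this
  have hgood : ∀ v ∈ (range Q).filter (fun v => ¬ (surv (prs 0 H) H v).card < w),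
      ((A.filter fun m => m % Q = v).card : ℝ) ≤ E := by
    intro v hv
    rw [mem_filter, mem_range, not_lt] at hv
    obtain ⟨T, hT, hTc⟩ := exists_subset_card_eq hv.2
    have hTm : ∀ h ∈ T, (1 ≤ h ∧ h ≤ H) ∧ ∀ p ∈ prs 0 H, ¬ p ∣ v + h := by
      intro h hh
      have := hT hh
      unfold surv at this
      rw [mem_filter, mem_Icc] at this
      exact this
    have hk := all_killed N H T (fun h hh => (hTm h hh).1.2) (prs H z)
      (fun p hp => ⟨(mem_prs.1 hp).2.2, (mem_prs.1 hp).1⟩) Q v hQpos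
      (fun p hp => by
        have h1 := mem_prs.1 hp
        rw [Nat.coprime_comm, Nat.Prime.coprime_iff_not_dvd h1.2.2]
        intro h2
        have := (dvd_primorial_iff h1.2.2).1 h2
        omega) R
    rw [hTc] at hk
    have hsub : (A.filter fun m => m % Q = v).card ≤ ((range N).filter fun m => m ≡ v [MOD Q] ∧
        ∀ h ∈ T, ∃ p ∈ prs H z, p ∣ m + h).card := by
      refine card_le_card ?_
      intro m hm
      rw [mem_filter] at hm
      rw [mem_filter]
      obtain ⟨hmA, hmv⟩ := hm
      rw [hA, mem_filter] at hmA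
      have hcong : m ≡ v [MOD Q] := by
        unfold Nat.ModEq
        rw [hmv, Nat.mod_eq_of_lt hv.1]
      refine ⟨hmA.1, hcong, ?_⟩
      intro h hh
      have hnc := hmA.2 h (mem_Icc.2 (hTm h hh).1)
      rw [coprime_primorial_iff] at hnc
      push Not at hnc
      obtain ⟨p, hp, hpz, hpd⟩ := hnc
      refine ⟨p, ?_, hpd⟩
      rw [mem_prs]
      refine ⟨?_, hpz, hp⟩
      by_contra hlt
      rw [not_lt] at hlt
      have hpQ : p ∣ Q := (dvd_primorial_iff hp).2 hlt
      have h1 : m + h ≡ v + h [MOD p] := (Nat.ModEq.add_right h hcong).of_dvd hpQ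
      have h2 : p ∣ v + h := (h1.dvd_iff (dvd_refl p)).1 hpd
      exact (hTm h hh).2 p (mem_prs.2 ⟨hp.pos, hlt, hp⟩) h2
    have hsub' : ((A.filter fun m => m % Q = v).card : ℝ) ≤ (((range N).filter fun m =>
        m ≡ v [MOD Q] ∧ ∀ h ∈ T, ∃ p ∈ prs H z, p ∣ m + h).card : ℝ) := by
      exact_mod_cast hsub
    refine hsub'.trans (hk.trans ?_)
    rw [hE]
    have hPc : ((prs H z).card : ℝ) ≤ z := by
      have h1 : (prs H z).card ≤ (Ioc H z).card := card_le_card (filter_subset _ _)
      rw [Nat.card_Ioc] at h1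
      have h2 : (prs H z).card ≤ z := by omega
      exact_mod_cast h2
    have hpow : (1 + (w : ℝ) * ((prs H z).card : ℝ)) ^ R ≤ (1 + (w : ℝ) * z) ^ R := by
      refine pow_le_pow_left₀ (by positivity) ?_ R
      have : (w : ℝ) * ((prs H z).card : ℝ) ≤ (w : ℝ) * z :=
        mul_le_mul_of_nonneg_left hPc (Nat.cast_nonneg w)
      linarith
    have h2w : (0 : ℝ) ≤ 2 ^ w := by positivity
    have := mul_le_mul_of_nonneg_left hpow h2w
    nlinarith [this]
  rw [hsplit, ← sum_filter_add_sum_filter_not (range Q) (fun v => (surv (prs 0 H) H v).card < w)]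
  refine add_le_add ?_ ?_
  · calc ∑ v ∈ bad, ((A.filter fun m => m % Q = v).card : ℝ) ≤ ∑ _v ∈ bad, ((N : ℝ) / Q + 1) :=
          sum_le_sum hbadb
      _ = ((N : ℝ) / Q + 1) * (bad.card : ℝ) := by
          rw [sum_const, nsmul_eq_mul, mul_comm]
  · calc ∑ v ∈ (range Q).filter (fun v => ¬ (surv (prs 0 H) H v).card < w),
          ((A.filter fun m => m % Q = v).card : ℝ)
        ≤ ∑ _v ∈ (range Q).filter (fun v => ¬ (surv (prs 0 H) H v).card < w), E :=
          sum_le_sum hgood
      _ = (((range Q).filter (fun v => ¬ (surv (prs 0 H) H v).card < w)).card : ℝ) * E := by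
          rw [sum_const, nsmul_eq_mul]
      _ ≤ (Q : ℝ) * E := by
          refine mul_le_mul_of_nonneg_right ?_ hE0
          have h1 : ((range Q).filter (fun v => ¬ (surv (prs 0 H) H v).card < w)).card ≤
              (range Q).card := card_le_card (filter_subset _ _)
          rw [card_range] at h1
          exact_mod_cast h1

end Pool.Agent.Lib.MP_e3f158_nt.G
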