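import Pool.Agent.Lib.MP_e3f158_nt.G.BadCls
import Pool.Agent.Lib.MP_e3f158_nt.G.RgFin
import Pool.Agent.Lib.MP_dd84fd_nt.E2.Defs

/-!
# MP_e3f158_nt, gaps: windows without rough numbers (module GP-RoughGap)
-/

set_option autoImplicit false

namespace Pool.Agent.Lib.MP_e3f158_nt.G

open Finset Filter Pool.MP_dd84fd_nt.E2

private theorem ww_succ (s : ℕ) : ww (s + 1) = ww s ^ 2 := by
  unfold ww
  rw [← pow_mul, pow_succ]

private theorem ww_mono {s t : ℕ} (h : s ≤ t) : ww s ≤ ww t := by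
  unfold ww
  exact Nat.pow_le_pow_right (by norm_num) (Nat.pow_le_pow_right (by norm_num) h)

private theorem ww_ge (t : ℕ) : t ≤ ww t := by
  unfold ww
  have h1 : t < 2 ^ t := Nat.lt_two_pow_self
  have h2 : 2 ^ t < 2 ^ 2 ^ t := Nat.lt_two_pow_self
  omega

/-- choice of the scale -/
private theorem exists_scale (L : ℝ) (hL : 2 ≤ L) (t0 : ℕ) (ht0 : (ww t0 : ℝ) < L ^ 3)
    (hlog : 9 * Real.log L ≤ L) :
    ∃ t : ℕ, t0 ≤ t ∧ L ^ 3 ≤ ww t ∧ (ww t : ℝ) ≤ L ^ 6 ∧ (2 : ℝ) ^ t ≤ L := by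
  classical
  have hex : ∃ t : ℕ, L ^ 3 ≤ ww t := by
    obtain ⟨n, hn⟩ := exists_nat_ge (L ^ 3)
    exact ⟨n, hn.trans (by exact_mod_cast ww_ge n)⟩
  obtain ⟨t, ht, hmin⟩ : ∃ t : ℕ, L ^ 3 ≤ ww t ∧ ∀ s < t, ¬ L ^ 3 ≤ ww s :=
    ⟨Nat.find hex, Nat.find_spec hex, fun s hs => Nat.find_min hex hs⟩
  have ht0t : t0 ≤ t := by
    by_contra h
    have h1 : (ww t : ℝ) ≤ ww t0 := by exact_mod_cast ww_mono (by omega)
    linarith
  have ht1 : t ≠ 0 := by
    rintro rfl
    have : (ww 0 : ℝ) = 2 := by norm_num [ww]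
    rw [this] at ht
    nlinarith [sq_nonneg L]
  obtain ⟨s, rfl⟩ : ∃ s, t = s + 1 := ⟨t - 1, by omega⟩
  have hs : (ww s : ℝ) < L ^ 3 := lt_of_not_ge (hmin s (by omega))
  have hw6 : (ww (s + 1) : ℝ) ≤ L ^ 6 := by
    rw [ww_succ]
    push_cast
    have h0 : (0 : ℝ) ≤ ww s := Nat.cast_nonneg _
    calc (ww s : ℝ) ^ 2 ≤ (L ^ 3) ^ 2 := by gcongr
      _ = L ^ 6 := by ring
  refine ⟨s + 1, ht0t, ht, hw6, ?_⟩
  have h1 : Real.log (ww (s + 1) : ℝ) = (2 : ℝ) ^ (s + 1) * Real.log 2 := by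
    unfold ww
    push_cast
    rw [Real.log_pow]
    push_cast
    ring
  have hpos : (0 : ℝ) < ww (s + 1) := lt_of_lt_of_le (by positivity) ht
  have h2 : Real.log (ww (s + 1) : ℝ) ≤ 6 * Real.log L := by
    have := Real.log_le_log hpos hw6
    rw [Real.log_pow] at this
    exact_mod_cast this
  rw [h1] at h2
  have h3 := Real.log_two_gt_d9
  have h4 : (0 : ℝ) ≤ Real.log L := Real.log_nonneg (by linarith)
  have h5 : (0 : ℝ) < (2 : ℝ) ^ (s + 1) := by positivity
  nlinarith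

/-- the facts with large exponents -/
private theorem big_facts (L x w : ℝ) (hL : 22 ≤ L) (h : L ^ 1237 ≤ Real.exp L)
    (hx : x = Real.exp L) (hw : 0 ≤ w) (hw6 : w ≤ L ^ 6) :
    w ^ 206 * 22 ≤ x ∧ L ^ 11 * 22 ≤ x ∧ w ^ 206 ≤ L ^ 1236 := by
  have hL1 : 1 ≤ L := le_trans (by norm_num) hL
  have h1 : w ^ 206 ≤ L ^ 1236 := by
    refine (pow_le_pow_left₀ hw hw6 206).trans (le_of_eq ?_)
    rw [← pow_mul]
  have h3 : (0 : ℝ) ≤ L ^ 1236 := pow_nonneg (le_trans zero_le_one hL1) _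
  have h2 : L ^ 1236 * 22 ≤ x := by
    rw [hx]
    refine le_trans ?_ h
    rw [pow_succ L 1236]
    exact mul_le_mul_of_nonneg_left hL h3
  have h4 : L ^ 11 ≤ L ^ 1236 := pow_le_pow_right₀ hL1 (by norm_num)
  refine ⟨le_trans ?_ h2, le_trans ?_ h2, h1⟩
  · exact mul_le_mul_of_nonneg_right h1 (by norm_num)
  · exact mul_le_mul_of_nonneg_right h4 (by norm_num)

/-- HINT: `L = log log N`, `t` minimal with `ww t ≥ L ^ 3`, so `L ^ 3 ≤ ww t < L ^ 6` and
`HH t < L ^ 1236`; take `K = 1236` (the window of length `⌊L ^ K⌋` contains `[1, HH t]`),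
`z = wX D N`, so `log z ≤ D L`, `R = ⌈L ^ 9⌉` in `rg_fin`, `bad_classes`
(`ww t / 2 ^ t ≥ L ^ 2` as `2 ^ t = log₂ (ww t)`), `mert_one`, `sum_inv_prs`,
`primorial (HH t) ≤ 4 ^ HH t ≤ N ^ (1/4)`. Everything is at most `N exp (-(B + 1) L)`. -/
theorem rough_gap : ∃ K : ℕ, ∀ B D : ℕ, 1 ≤ D → ∀ᶠ N : ℕ in atTop,
    (((range (N + 1)).filter fun m => ∀ h ∈ Icc 1 ⌊(Real.log (Real.log N)) ^ K⌋₊,
      ¬ Nat.Coprime (m + h) (primorial (wX D N))).card : ℝ) ≤ N / (Real.log N) ^ B := by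
  obtain ⟨c, hc, t0, hbad⟩ := bad_classes
  obtain ⟨c2, hc2, hmert⟩ := mert_one
  refine ⟨1236, fun B D hD => ?_⟩
  have hDr : (1 : ℝ) ≤ D := by exact_mod_cast hD
  have hB0 : (0 : ℝ) ≤ B := Nat.cast_nonneg B
  -- the eventual facts
  have hLtend : Tendsto (fun N : ℕ => Real.log (Real.log N)) atTop atTop :=
    Real.tendsto_log_atTop.comp (Real.tendsto_log_atTop.comp tendsto_natCast_atTop_atTop)
  have hlogtend : Tendsto (fun N : ℕ => Real.log N) atTop atTop :=
    Real.tendsto_log_atTop.comp tendsto_natCast_atTop_atTop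
  set C0 : ℝ := 16 + 6 * D + B + (B + 35) / c + (B + 7) * D / c2 + ww t0 with hC0
  have f1 : ∀ᶠ L : ℝ in atTop, C0 ≤ L := eventually_ge_atTop C0
  have f2 : ∀ᶠ L : ℝ in atTop, 9 * Real.log L ≤ L := by
    have h := Real.isLittleO_log_id_atTop.bound (show (0 : ℝ) < 1 / 9 by norm_num)
    filter_upwards [h, eventually_ge_atTop (1 : ℝ)] with L h1 h2
    rw [id, Real.norm_eq_abs, Real.norm_eq_abs, abs_of_nonneg (Real.log_nonneg h2),
      abs_of_nonneg (by linarith)] at h1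
    linarith
  have f3 : ∀ᶠ L : ℝ in atTop, L ^ 1237 ≤ Real.exp L := by
    have h := (Real.tendsto_exp_div_pow_atTop 1237).eventually_ge_atTop 1
    filter_upwards [h, eventually_ge_atTop (1 : ℝ)] with L h1 h2
    have h3 : (0 : ℝ) < L ^ 1237 := by positivity
    rwa [le_div_iff₀ h3, one_mul] at h1
  filter_upwards [hLtend.eventually f1, hLtend.eventually f2, hLtend.eventually f3,
    hlogtend.eventually_ge_atTop 2, eventually_ge_atTop 2] with N g1 g2 g3 hx2 hN2
  set x : ℝ := Real.log N with hx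
  set L : ℝ := Real.log x with hLdef
  have hNpos : (0 : ℝ) < N := by exact_mod_cast (by omega : 0 < N)
  have hNx : (N : ℝ) = Real.exp x := (Real.exp_log hNpos).symm
  have hxpos : 0 < x := by linarith
  have hxL : x = Real.exp L := (Real.exp_log hxpos).symm
  have hw0 : (0 : ℝ) ≤ ww t0 := Nat.cast_nonneg _
  have hq1 : 0 ≤ (B + 35) / c := by positivity
  have hq2 : 0 ≤ (B + 7) * D / c2 := by positivity
  have hCL : 16 + 6 * D + B + (B + 35) / c + (B + 7) * D / c2 + ww t0 ≤ L := g1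
  clear g1
  have hL22 : 22 ≤ L := by linarith
  have hLpos : 0 < L := by linarith
  have hL1 : 1 ≤ L := by linarith
  have hLB : 16 + 6 * D + B ≤ L := by linarith
  have hLc : (B + 35) ≤ c * L := by
    have : (B + 35) / c ≤ L := by linarith
    rw [div_le_iff₀ hc] at this
    linarith
  have hLc2 : (B + 7) * D ≤ c2 * L := by
    have : (B + 7) * D / c2 ≤ L := by linarith
    rw [div_le_iff₀ hc2] at this
    linarith
  have hpow : ∀ a b : ℕ, a ≤ b → L ^ a ≤ L ^ b := fun a b hab => pow_le_pow_right₀ hL1 hab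
  have hLle3 : L ≤ L ^ 3 := by simpa using hpow 1 3 (by norm_num)
  obtain ⟨t, ht0, hw3, hw6, h2t⟩ := exists_scale L (by linarith) t0
    (lt_of_lt_of_le (by linarith) hLle3) g2
  obtain ⟨hHx22, hL11x, hHL'⟩ := big_facts L x (ww t) hL22 g3 hxL (Nat.cast_nonneg _) hw6
  have hHHcast : (HH t : ℝ) = (ww t : ℝ) ^ 206 := by
    unfold HH
    push_cast
    rfl
  rw [← hHHcast] at hHx22 hHL'
  have hflo : HH t ≤ ⌊L ^ 1236⌋₊ := Nat.le_floor hHL'
  clear hHL' g3 hHHcast
  have hHx : (HH t : ℝ) ≤ x := by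
    have : (0 : ℝ) ≤ HH t := Nat.cast_nonneg _
    linarith
  have hxD : x ≤ x ^ D := le_self_pow₀ (by linarith) (by omega)
  have hz : HH t ≤ wX D N := by
    unfold wX
    exact Nat.le_floor (hHx.trans hxD)
  set z := wX D N with hzdef
  have hzle : (z : ℝ) ≤ x ^ D := Nat.floor_le (by positivity)
  have hz2 : 2 ≤ z := by
    rw [hzdef]
    unfold wX
    apply Nat.le_floor
    push_cast
    linarith
  have hzpos : (0 : ℝ) < z := by exact_mod_cast (by omega : 0 < z)
  have hlogz : Real.log z ≤ D * L := by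
    have := Real.log_le_log hzpos hzle
    rw [Real.log_pow] at this
    exact this
  have hlogz0 : 0 < Real.log z := Real.log_pos (by exact_mod_cast (by omega : 1 < z))
  -- the subset
  refine le_trans (Nat.cast_le.2 (card_le_card (fun m hm => ?_)))
    (le_trans (rg_fin (N + 1) t z ⌈L ^ 9⌉₊ hz) ?_)
  · rw [mem_filter] at hm ⊢
    refine ⟨hm.1, fun h hh => hm.2 h ?_⟩
    rw [mem_Icc] at hh ⊢
    exact ⟨hh.1, hh.2.trans hflo⟩
  clear hflo
  -- the primorial
  set Q : ℝ := (primorial (HH t) : ℝ) with hQ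
  have hQpos : 0 < Q := by
    rw [hQ]; exact_mod_cast primorial_pos _
  have hQle : Q ≤ Real.exp (x / 4) := by
    have h1 : Q ≤ (4 : ℝ) ^ HH t := by
      rw [hQ]; exact_mod_cast primorial_le_four_pow _
    refine h1.trans ?_
    have h2 : (4 : ℝ) ≤ Real.exp 2 := by
      have h4 : (2 : ℝ) ≤ Real.exp 1 := by
        have := Real.add_one_le_exp (1 : ℝ); linarith
      have h3 : Real.exp 2 = Real.exp 1 * Real.exp 1 := by rw [← Real.exp_add]; norm_num
      rw [h3]
      calc (4 : ℝ) = 2 * 2 := by norm_num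
        _ ≤ Real.exp 1 * Real.exp 1 := mul_le_mul h4 h4 (by norm_num) (Real.exp_pos 1).le
    calc (4 : ℝ) ^ HH t ≤ (Real.exp 2) ^ HH t := by gcongr
      _ = Real.exp (HH t * 2) := by rw [← Real.exp_nat_mul]
      _ ≤ Real.exp (x / 4) := by
        rw [Real.exp_le_exp]; linarith
  have hQN : Q ≤ N := by
    refine hQle.trans ?_
    rw [hNx, Real.exp_le_exp]; linarith
  have hN1 : (1 : ℝ) ≤ N := by exact_mod_cast (by omega : 1 ≤ N)
  have hres : (N : ℝ) / x ^ B = Real.exp (x - B * L) := by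
    rw [Real.exp_sub, ← hNx]
    congr 1
    rw [hxL, ← Real.exp_nat_mul]
  rw [hres]
  have hexpx : (N : ℝ) * Real.exp (-(B * L)) = Real.exp (x - B * L) := by
    rw [hNx, ← Real.exp_add]; ring_nf
  have hNcast : ((N + 1 : ℕ) : ℝ) = N + 1 := by push_cast; ring
  rw [hNcast]
  -- scale facts
  have h2tpos : (0 : ℝ) < (2 : ℝ) ^ t := by positivity
  have hwt : L ^ 2 ≤ (ww t : ℝ) / 2 ^ t := by
    rw [le_div_iff₀ h2tpos]
    calc L ^ 2 * 2 ^ t ≤ L ^ 2 * L := by gcongr
      _ = L ^ 3 := by ring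
      _ ≤ _ := hw3
  have hL2 : (0 : ℝ) < L ^ 2 := by positivity
  -- term 1
  have T1 : (((N : ℝ) + 1) / Q + 1) * (((range (primorial (HH t))).filter fun v =>
        (surv (prs 0 (HH t)) (HH t) v).card < ww t).card : ℝ) ≤ Real.exp (x - B * L) / 4 := by
    have h1 := hbad t ht0
    have h2 : Real.exp (-(c * ww t / 2 ^ t)) ≤ Real.exp (-(B * L) - 35) := by
      rw [Real.exp_le_exp]
      have h3 : c * L ^ 2 ≤ c * ww t / 2 ^ t := by
        rw [mul_div_assoc]
        exact mul_le_mul_of_nonneg_left hwt hc.le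
      have h5 : (B + 35) * L ≤ c * L ^ 2 := by
        calc (B + 35) * L ≤ c * L * L := by gcongr
          _ = c * L ^ 2 := by ring
      have h6 : (B + 35) * L = B * L + 35 * L := by ring
      linarith
    have h4 : (36 : ℝ) ≤ Real.exp 35 := by
      have := Real.add_one_le_exp (35 : ℝ); linarith
    calc (((N : ℝ) + 1) / Q + 1) * _ ≤ (((N : ℝ) + 1) / Q + 1) *
          (3 * Q * Real.exp (-(B * L) - 35)) := by
            refine mul_le_mul_of_nonneg_left ?_ (by positivity)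
            refine h1.trans ?_
            exact mul_le_mul_of_nonneg_left h2 (by positivity)
      _ = 3 * ((N : ℝ) + 1 + Q) * Real.exp (-(B * L) - 35) := by
            field_simp
      _ ≤ 3 * (3 * N) * Real.exp (-(B * L) - 35) := by
            refine mul_le_mul_of_nonneg_right ?_ (Real.exp_pos _).le
            linarith
      _ = 9 * (N * Real.exp (-(B * L))) / Real.exp 35 := by
            rw [Real.exp_sub]; ring
      _ ≤ 9 * (N * Real.exp (-(B * L))) / 36 := by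
            gcongr
      _ = Real.exp (x - B * L) / 4 := by rw [hexpx]; ring
  -- term 2
  have hprod0 : ∀ p ∈ prs (HH t) z, (0 : ℝ) ≤ 1 - 1 / (p : ℝ) ∧ 1 - 1 / (p : ℝ) ≤ 1 := by
    intro p hp
    rw [mem_prs] at hp
    have h1 : (1 : ℝ) ≤ p := by exact_mod_cast hp.2.2.one_lt.le
    have h2 : 1 / (p : ℝ) ≤ 1 := by rw [div_le_one (by linarith)]; exact h1
    have h3 : (0 : ℝ) ≤ 1 / (p : ℝ) := by positivity
    constructor <;> linarith
  set Pi : ℝ := ∏ p ∈ prs (HH t) z, (1 - 1 / (p : ℝ)) with hPi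
  have hPi1 : Pi ≤ 1 := prod_le_one (fun p hp => (hprod0 p hp).1) fun p hp => (hprod0 p hp).2
  have hPige : c2 / (D * L) ≤ Pi := by
    refine le_trans ?_ (hmert (HH t) z hz2)
    exact div_le_div_of_nonneg_left hc2.le hlogz0 hlogz
  have T2 : Q * (((N : ℝ) + 1) / Q * (1 - Pi) ^ ww t) ≤ Real.exp (x - B * L) / 4 := by
    have h1 : Q * (((N : ℝ) + 1) / Q * (1 - Pi) ^ ww t) = ((N : ℝ) + 1) * (1 - Pi) ^ ww t := by
      field_simp
    rw [h1]
    have h2 : (1 - Pi) ^ ww t ≤ Real.exp (-(B * L) - 7) := by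
      calc (1 - Pi) ^ ww t ≤ (Real.exp (-Pi)) ^ ww t := by
            refine pow_le_pow_left₀ (by linarith) ?_ _
            have := Real.add_one_le_exp (-Pi)
            linarith
        _ = Real.exp (ww t * -Pi) := by rw [← Real.exp_nat_mul]
        _ ≤ Real.exp (-(B * L) - 7) := by
            rw [Real.exp_le_exp]
            have hDL : 0 < D * L := by positivity
            have h3 : c2 / (D * L) * L ^ 3 ≤ Pi * ww t := by
              refine mul_le_mul hPige hw3 (by positivity) ?_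
              exact le_trans (by positivity) hPige
            have h4 : (B + 7) * L ≤ c2 / (D * L) * L ^ 3 := by
              rw [div_mul_eq_mul_div, le_div_iff₀ hDL]
              have : (B + 7) * L * (D * L) = ((B + 7) * D) * L ^ 2 := by ring
              rw [this]
              calc (B + 7) * D * L ^ 2 ≤ c2 * L * L ^ 2 := by gcongr
                _ = c2 * L ^ 3 := by ring
            have h6 : (B + 7) * L = B * L + 7 * L := by ring
            have h7 : (ww t : ℝ) * -Pi = -(Pi * ww t) := by ring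
            rw [h7]
            linarith
    have h5 : (8 : ℝ) ≤ Real.exp 7 := by
      have := Real.add_one_le_exp (7 : ℝ); linarith
    calc ((N : ℝ) + 1) * (1 - Pi) ^ ww t ≤ (2 * N) * Real.exp (-(B * L) - 7) := by
          refine mul_le_mul (by linarith) h2 (pow_nonneg (by linarith) _) (by positivity)
      _ = 2 * (N * Real.exp (-(B * L))) / Real.exp 7 := by rw [Real.exp_sub]; ring
      _ ≤ 2 * (N * Real.exp (-(B * L))) / 8 := by gcongr
      _ = Real.exp (x - B * L) / 4 := by rw [hexpx]; ring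
  -- term 3
  have hwpos : (0 : ℝ) ≤ ww t := Nat.cast_nonneg _
  have h2w : (2 : ℝ) ^ ww t ≤ Real.exp (L ^ 6) := by
    have h2 : (2 : ℝ) ≤ Real.exp 1 := by
      have := Real.add_one_le_exp (1 : ℝ); linarith
    calc (2 : ℝ) ^ ww t ≤ (Real.exp 1) ^ ww t := by gcongr
      _ = Real.exp (ww t * 1) := by rw [← Real.exp_nat_mul]
      _ ≤ Real.exp (L ^ 6) := by rw [Real.exp_le_exp]; linarith
  have hR1 : L ^ 9 ≤ (⌈L ^ 9⌉₊ : ℝ) := Nat.le_ceil _
  have hR2 : (⌈L ^ 9⌉₊ : ℝ) ≤ L ^ 9 + 1 := (Nat.ceil_lt_add_one (by positivity)).le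
  set R := ⌈L ^ 9⌉₊ with hRdef
  have hσ : ∑ p ∈ prs (HH t) z, (1 : ℝ) / p ≤ 1 + D * L := by
    have := sum_inv_prs (HH t) z (by omega)
    linarith
  have hσ0 : (0 : ℝ) ≤ ∑ p ∈ prs (HH t) z, (1 : ℝ) / p := sum_nonneg fun p _ => by positivity
  set σ : ℝ := ∑ p ∈ prs (HH t) z, (1 : ℝ) / p with hσdef
  have T3 : Q * (2 ^ ww t * (((N : ℝ) + 1) / Q * (2 * Real.exp (3 * ww t * σ - R)))) ≤
      Real.exp (x - B * L) / 4 := by
    have h1 : Q * (2 ^ ww t * (((N : ℝ) + 1) / Q * (2 * Real.exp (3 * ww t * σ - R)))) =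
        2 * ((N : ℝ) + 1) * (2 ^ ww t * Real.exp (3 * ww t * σ - R)) := by
      field_simp
    rw [h1]
    have h2 : 3 * ww t * σ ≤ 6 * D * L ^ 7 := by
      have h3 : (ww t : ℝ) * σ ≤ L ^ 6 * (1 + D * L) :=
        mul_le_mul hw6 hσ hσ0 (by positivity)
      have h4 : L ^ 6 * (1 + D * L) ≤ 2 * D * L ^ 7 := by
        have h5 : 1 ≤ D * L := one_le_mul_of_one_le_of_one_le hDr hL1
        have h6 : L ^ 6 * (1 + D * L) ≤ L ^ 6 * (D * L + D * L) := by gcongr
        have h7 : L ^ 6 * (D * L + D * L) = 2 * D * L ^ 7 := by ring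
        linarith
      have h10 : 3 * (ww t : ℝ) * σ = 3 * (ww t * σ) := by ring
      rw [h10]
      linarith
    have h8 : L ^ 6 + 6 * D * L ^ 7 + B * L + 15 ≤ L ^ 9 := by
      have e1 : L ^ 6 ≤ L ^ 8 := hpow 6 8 (by norm_num)
      have e2 : L ^ 7 ≤ L ^ 8 := hpow 7 8 (by norm_num)
      have e3 : L ≤ L ^ 8 := by simpa using hpow 1 8 (by norm_num)
      have e4 : 1 ≤ L ^ 8 := one_le_pow₀ hL1
      have e5 : (16 + 6 * D + B) * L ^ 8 ≤ L * L ^ 8 := by gcongr
      have e6 : L * L ^ 8 = L ^ 9 := by ring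
      have e7 : 6 * D * L ^ 7 ≤ 6 * D * L ^ 8 := by gcongr
      have e8 : B * L ≤ B * L ^ 8 := by gcongr
      have e9 : (16 + 6 * D + B) * L ^ 8 = 16 * L ^ 8 + 6 * D * L ^ 8 + B * L ^ 8 := by ring
      linarith
    have h9 : 2 ^ ww t * Real.exp (3 * ww t * σ - R) ≤ Real.exp (-(B * L) - 15) := by
      calc 2 ^ ww t * Real.exp (3 * ww t * σ - R) ≤
            Real.exp (L ^ 6) * Real.exp (3 * ww t * σ - R) := by gcongr
        _ = Real.exp (L ^ 6 + (3 * ww t * σ - R)) := by rw [← Real.exp_add]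
        _ ≤ Real.exp (-(B * L) - 15) := by
            rw [Real.exp_le_exp]; linarith
    have h10 : (16 : ℝ) ≤ Real.exp 15 := by
      have := Real.add_one_le_exp (15 : ℝ); linarith
    calc 2 * ((N : ℝ) + 1) * (2 ^ ww t * Real.exp (3 * ww t * σ - R)) ≤
          (4 * N) * Real.exp (-(B * L) - 15) := by
          refine mul_le_mul (by linarith) h9 (by positivity) (by positivity)
      _ = 4 * (N * Real.exp (-(B * L))) / Real.exp 15 := by rw [Real.exp_sub]; ring
      _ ≤ 4 * (N * Real.exp (-(B * L))) / 16 := by gcongr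
      _ = Real.exp (x - B * L) / 4 := by rw [hexpx]; ring
  -- term 4
  have T4 : Q * (2 ^ ww t * (1 + (ww t : ℝ) * z) ^ R) ≤ Real.exp (x - B * L) / 4 := by
    have h1 : 1 + (ww t : ℝ) * z ≤ Real.exp ((D + 2) * L) := by
      have hLx6 : L ^ 6 ≤ x := by
        have := hpow 6 11 (by norm_num)
        have : (0 : ℝ) ≤ L ^ 11 := by positivity
        linarith
      have h2 : (ww t : ℝ) * z ≤ x * x ^ D :=
        mul_le_mul (hw6.trans hLx6) hzle hzpos.le hxpos.le
      have hx1 : (1 : ℝ) ≤ x := by linarith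
      have h3 : (1 : ℝ) ≤ x * x ^ D := one_le_mul_of_one_le_of_one_le hx1 (one_le_pow₀ hx1)
      have h4 : 1 + (ww t : ℝ) * z ≤ x * (x * x ^ D) := by
        have h8 : 2 * (x * x ^ D) ≤ x * (x * x ^ D) :=
          mul_le_mul_of_nonneg_right hx2 (by positivity)
        linarith
      refine h4.trans (le_of_eq ?_)
      have h5 : x * (x * x ^ D) = x ^ (D + 2) := by ring
      rw [h5]
      conv_lhs => rw [hxL]
      rw [← Real.exp_nat_mul]
      push_cast
      ring_nf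
    have h6 : (1 + (ww t : ℝ) * z) ^ R ≤ Real.exp ((L ^ 9 + 1) * ((D + 2) * L)) := by
      calc (1 + (ww t : ℝ) * z) ^ R ≤ (Real.exp ((D + 2) * L)) ^ R := by
            refine pow_le_pow_left₀ (by positivity) h1 _
        _ = Real.exp (R * ((D + 2) * L)) := by rw [← Real.exp_nat_mul]
        _ ≤ _ := by
            rw [Real.exp_le_exp]
            refine mul_le_mul_of_nonneg_right hR2 (by positivity)
    have h7 : x / 4 + (L ^ 6 + (L ^ 9 + 1) * ((D + 2) * L)) + 3 ≤ x - B * L := by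
      have e1 : L ^ 6 ≤ L ^ 10 := hpow 6 10 (by norm_num)
      have e3 : L ≤ L ^ 10 := by simpa using hpow 1 10 (by norm_num)
      have e4 : 1 ≤ L ^ 10 := one_le_pow₀ hL1
      have e5 : (L ^ 9 + 1) * ((D + 2) * L) = (D + 2) * L ^ 10 + (D + 2) * L := by ring
      have e6 : (D + 2) * L ≤ (D + 2) * L ^ 10 := by gcongr
      have e8 : B * L ≤ B * L ^ 10 := by gcongr
      have e9 : (16 + 6 * D + B) * L ^ 10 ≤ L * L ^ 10 := by gcongr
      have e10 : L * L ^ 10 = L ^ 11 := by ring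
      have e11 : (0 : ℝ) ≤ L ^ 11 := by positivity
      have e12 : L ^ 6 + ((D + 2) * L ^ 10 + (D + 2) * L) + 3 + B * L ≤ L ^ 11 := by
        have e13 : (16 + 6 * D + B) * L ^ 10 = 16 * L ^ 10 + 6 * (D * L ^ 10) + B * L ^ 10 := by
          ring
        have e14 : (D + 2) * L ^ 10 = D * L ^ 10 + 2 * L ^ 10 := by ring
        have e15 : (0 : ℝ) ≤ D * L ^ 10 := by positivity
        linarith
      rw [e5]
      linarith
    have h8 : (4 : ℝ) ≤ Real.exp 3 := by
      have := Real.add_one_le_exp (3 : ℝ); linarith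
    calc Q * (2 ^ ww t * (1 + (ww t : ℝ) * z) ^ R) ≤
          Real.exp (x / 4) * (Real.exp (L ^ 6) * Real.exp ((L ^ 9 + 1) * ((D + 2) * L))) := by
          refine mul_le_mul hQle ?_ (by positivity) (Real.exp_pos _).le
          exact mul_le_mul h2w h6 (by positivity) (Real.exp_pos _).le
      _ = Real.exp (x / 4 + (L ^ 6 + (L ^ 9 + 1) * ((D + 2) * L))) := by
          rw [← Real.exp_add, ← Real.exp_add]
      _ ≤ Real.exp (x - B * L - 3) := by
          rw [Real.exp_le_exp]; linarith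
      _ = Real.exp (x - B * L) / Real.exp 3 := by rw [Real.exp_sub]
      _ ≤ Real.exp (x - B * L) / 4 := by gcongr
  have hsplit : Q * (((N : ℝ) + 1) / Q * (1 - Pi) ^ ww t +
      2 ^ ww t * (((N : ℝ) + 1) / Q * (2 * Real.exp (3 * ww t * σ - R)) +
        (1 + (ww t : ℝ) * z) ^ R)) =
      Q * (((N : ℝ) + 1) / Q * (1 - Pi) ^ ww t) +
      Q * (2 ^ ww t * (((N : ℝ) + 1) / Q * (2 * Real.exp (3 * ww t * σ - R)))) +
      Q * (2 ^ ww t * (1 + (ww t : ℝ) * z) ^ R) := by ring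
  rw [hsplit]
  linarith

end Pool.Agent.Lib.MP_e3f158_nt.G
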