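import Pool.Agent.Lib.MP_e3f158_nt.G.LG
import Pool.Agent.Lib.MP_e3f158_nt.G.RoughGap

/-!
# MP_e3f158_nt, gaps between integers of type `(a, 0)` (module GP-Gaps)
-/

set_option autoImplicit false

namespace Pool.Agent.Lib.MP_e3f158_nt.G

open Finset Filter Pool.MP_dd84fd_nt.E2

/-- the `a`-primes `r ≤ x` -/
noncomputable def aP (a x : ℕ) : Finset ℕ := (Icc 1 (pic (a + 1) x)).image fun y => ipr a y

theorem card_aP (a x : ℕ) : (aP a x).card = pic (a + 1) x := by
  unfold aP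
  rw [card_image_of_injOn, Nat.card_Icc, Nat.add_sub_cancel]
  intro z hz z' hz' h
  rw [mem_coe, mem_Icc] at hz hz'
  have h' : pr^[a + 1] z = pr^[a + 1] z' := h
  rcases lt_trichotomy z z' with h1 | h1 | h1
  · have := iter_strictMono (a + 1) z z' (by omega) h1
    omega
  · exact h1
  · have := iter_strictMono (a + 1) z' z (by omega) h1
    omega

theorem mem_aP {a x r : ℕ} (h : r ∈ aP a x) : r ≤ x ∧ r.Prime ∧ ∃ y : ℕ, 1 ≤ y ∧ ipr a y = r := by
  unfold aP at h
  rw [mem_image] at h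
  obtain ⟨y, hy, rfl⟩ := h
  rw [mem_Icc] at hy
  exact ⟨(iter_le_iff (a + 1) y x hy.1).2 hy.2, ipr_prime a y, y, hy.1, rfl⟩

open Classical in
/-- For odd `n` at most one `a`-prime is good. -/
theorem good_odd {a z n : ℕ} (hz : 2 ≤ z) (hn : ¬ Even n) : (good a z n).card ≤ 1 := by
  have key : ∀ r ∈ good a z n, r = 2 := by
    intro r hr
    unfold good at hr
    rw [mem_filter, mem_Icc] at hr
    obtain ⟨_, ⟨x, hx, rfl⟩, h1, h2⟩ := hr
    by_contra h3
    have h4 : (ipr a x).Prime := ipr_prime a x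
    have h5 : Odd (ipr a x) := h4.odd_of_ne_two h3
    have h6 : Even (n - ipr a x) :=
      Nat.Odd.sub_odd (Nat.not_even_iff_odd.1 hn) h5
    exact coprime_primorial_iff.1 h2 2 Nat.prime_two hz h6.two_dvd
  rw [card_le_one]
  intro r hr r' hr'
  rw [key r hr, key r' hr']

open Classical in
/-- Finite form: a window without even integers of type `(a, 0)`, all of whose integers have few good
`a`-primes, gives many `a`-primes `r` with `x - r` in the set of windows without rough numbers. -/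
theorem gaps_step (a z x H : ℕ) (thr : ℝ)
    (hg : ∀ n ∈ Ioc x (x + H), ((good a z n).card : ℝ) < thr) :
    (pic (a + 1) x : ℝ) - 1 - H * thr ≤
      (((aP a x).filter fun r => r < x ∧
        ∀ h ∈ Icc 1 H, ¬ Nat.Coprime ((x - r) + h) (primorial z)).card : ℝ) := by
  set F := (aP a x).filter fun r => r < x ∧
        ∀ h ∈ Icc 1 H, ¬ Nat.Coprime ((x - r) + h) (primorial z) with hF
  have hsub : aP a x ⊆ F ∪ {x} ∪ (Icc 1 H).biUnion fun h => good a z (x + h) := by
    intro r hr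
    obtain ⟨h1, h2, y, hy, hyr⟩ := mem_aP hr
    rw [mem_union, mem_union, mem_singleton, mem_biUnion]
    by_cases hx : r = x
    · exact Or.inl (Or.inr hx)
    · have hlt : r < x := by omega
      by_cases hc : ∀ h ∈ Icc 1 H, ¬ Nat.Coprime ((x - r) + h) (primorial z)
      · exact Or.inl (Or.inl (mem_filter.2 ⟨hr, hlt, hc⟩))
      · right
        push Not at hc
        obtain ⟨h, hh, hcop⟩ := hc
        refine ⟨h, hh, ?_⟩
        rw [mem_Icc] at hh
        unfold good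
        rw [mem_filter, mem_Icc]
        refine ⟨⟨h2.pos, by omega⟩, ⟨y, hy, hyr⟩, by omega, ?_⟩
        have e : x + h - r = (x - r) + h := by omega
        rw [e]
        exact hcop
  have h1 := card_le_card hsub
  have h2 : ((F ∪ {x} ∪ (Icc 1 H).biUnion fun h => good a z (x + h)).card : ℝ) ≤
      F.card + 1 + H * thr := by
    have h3 : (F ∪ {x} ∪ (Icc 1 H).biUnion fun h => good a z (x + h)).card ≤
        F.card + 1 + ((Icc 1 H).biUnion fun h => good a z (x + h)).card := by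
      refine (card_union_le _ _).trans ?_
      gcongr
      exact (card_union_le _ _).trans (by simp)
    have h4 : (((Icc 1 H).biUnion fun h => good a z (x + h)).card : ℝ) ≤ H * thr := by
      have h5 : ((Icc 1 H).biUnion fun h => good a z (x + h)).card ≤
          ∑ h ∈ Icc 1 H, (good a z (x + h)).card := card_biUnion_le
      have h6 : ∑ h ∈ Icc 1 H, ((good a z (x + h)).card : ℝ) ≤ ∑ h ∈ Icc 1 H, thr := by
        refine sum_le_sum fun h hh => ?_
        rw [mem_Icc] at hh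
        exact (hg (x + h) (mem_Ioc.2 ⟨by omega, by omega⟩)).le
      rw [sum_const, Nat.card_Icc, Nat.add_sub_cancel, nsmul_eq_mul] at h6
      refine le_trans ?_ h6
      exact_mod_cast h5
    have h7 : ((F ∪ {x} ∪ (Icc 1 H).biUnion fun h => good a z (x + h)).card : ℝ) ≤
        (F.card : ℝ) + 1 + (((Icc 1 H).biUnion fun h => good a z (x + h)).card : ℝ) := by
      exact_mod_cast h3
    linarith
  rw [card_aP] at h1
  have h3 : (pic (a + 1) x : ℝ) ≤ ((F ∪ {x} ∪ (Icc 1 H).biUnion fun h => good a z (x + h)).card : ℝ) := by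
    exact_mod_cast h1
  linarith

open Classical in
/-- Double counting. -/
theorem gaps_count (a z N H : ℕ) (X : Finset ℕ) (hX : X ⊆ Icc 1 N) (c : ℝ)
    (hc : ∀ x ∈ X, c ≤ (((aP a x).filter fun r => r < x ∧
        ∀ h ∈ Icc 1 H, ¬ Nat.Coprime ((x - r) + h) (primorial z)).card : ℝ)) :
    (X.card : ℝ) * c ≤ N * (((range (N + 1)).filter fun m => ∀ h ∈ Icc 1 H,
      ¬ Nat.Coprime (m + h) (primorial z)).card : ℝ) := by
  set M := (range (N + 1)).filter fun m => ∀ h ∈ Icc 1 H, ¬ Nat.Coprime (m + h) (primorial z)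
    with hM
  have h1 : (X.card : ℝ) * c ≤ ∑ x ∈ X, (((aP a x).filter fun r => r < x ∧
        ∀ h ∈ Icc 1 H, ¬ Nat.Coprime ((x - r) + h) (primorial z)).card : ℝ) := by
    rw [← nsmul_eq_mul, ← sum_const]
    exact sum_le_sum hc
  refine h1.trans ?_
  have h2 : ∑ x ∈ X, ((aP a x).filter fun r => r < x ∧
        ∀ h ∈ Icc 1 H, ¬ Nat.Coprime ((x - r) + h) (primorial z)).card ≤
      (Icc 1 N ×ˢ M).card := by
    rw [← card_sigma]
    refine card_le_card_of_injOn (fun p => (p.2, p.1 - p.2)) ?_ ?_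
    · rintro ⟨x, r⟩ hp
      rw [mem_coe, mem_sigma, mem_filter] at hp
      obtain ⟨hx, hr, hlt, hcop⟩ := hp
      have h3 := mem_Icc.1 (hX hx)
      obtain ⟨_, h4, _⟩ := mem_aP hr
      have h5 := h4.pos
      simp only at *
      rw [mem_coe, mem_product, hM, mem_filter, mem_Icc, mem_range]
      exact ⟨⟨h5, by omega⟩, by omega, hcop⟩
    · rintro ⟨x, r⟩ hp ⟨x', r'⟩ hp' heq
      rw [mem_coe, mem_sigma, mem_filter] at hp hp'
      have h3 := hp.2.2.1
      have h4 := hp'.2.2.1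
      simp only [Prod.mk.injEq] at heq h3 h4
      obtain ⟨h5, h6⟩ := heq
      subst h5
      have : x = x' := by omega
      subst this
      rfl
  rw [card_product, Nat.card_Icc, Nat.add_sub_cancel] at h2
  exact_mod_cast h2

open Classical in
/-- The finite part of the final count. -/
theorem gaps_fin (a A z N H n0 : ℕ) (ℓ : ℝ) (hℓ : ℓ = Real.log N) (h2 : (2 : ℝ) ^ (a + 2) ≤ ℓ)
    (h4 : (4 : ℝ) ≤ ℓ) (hz : 2 ≤ z) (hH : (H : ℝ) ≤ ℓ) (hN1 : 2 * ℓ ^ (A + a + 8) ≤ (N : ℝ))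
    (hn0 : 2 ≤ n0) (hpic : ∀ n : ℕ, n0 ≤ n → (n : ℝ) / (2 * Real.log n) ^ (a + 1) ≤ pic (a + 1) n)
    (hn0' : (n0 : ℝ) ≤ N / ℓ ^ (A + 1))
    (hE : (((Icc 1 N).filter fun n => ¬ HasRep a 0 n ∧
      (N : ℝ) / ℓ ^ (A + a + 6) ≤ ((good a z n).card : ℝ)).card : ℝ) ≤ N / ℓ ^ (A + a + 6))
    (hM : (((range (N + 1)).filter fun m => ∀ h ∈ Icc 1 H,
      ¬ Nat.Coprime (m + h) (primorial z)).card : ℝ) ≤ N / ℓ ^ (2 * A + a + 8)) :
    (((Icc 1 N).filter fun x => ∀ n ∈ Ioc x (x + H), ¬ (Even n ∧ HasRep a 0 n)).card : ℝ) ≤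
      N / ℓ ^ A := by
  have hℓ0 : 0 < ℓ := by linarith
  have hℓ1 : 1 ≤ ℓ := by linarith
  have hN0 : (0 : ℝ) < N := lt_of_lt_of_le (by positivity) hN1
  have hNn : 0 < N := by exact_mod_cast hN0
  set Ex := (Icc 1 N).filter fun n => ¬ HasRep a 0 n ∧
      (N : ℝ) / ℓ ^ (A + a + 6) ≤ ((good a z n).card : ℝ) with hEx
  set X := (Icc 1 N).filter fun x => ∀ n ∈ Ioc x (x + H), ¬ (Even n ∧ HasRep a 0 n) with hX
  set X3 := X.filter fun x : ℕ => (N : ℝ) / ℓ ^ (A + 1) ≤ (x : ℝ) ∧ x + H ≤ N ∧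
    ∀ n ∈ Ioc x (x + H), n ∉ Ex with hX3
  have hpl : ∀ k l : ℕ, k ≤ l → ℓ ^ k ≤ ℓ ^ l := fun k l h => pow_le_pow_right₀ hℓ1 h
  -- the decomposition
  have hsub : X ⊆ Icc 1 ⌊(N : ℝ) / ℓ ^ (A + 1)⌋₊ ∪ Ioc (N - H) N ∪
      (Ex.biUnion fun n => Ico (n - H) n) ∪ X3 := by
    intro x hx
    have hx' := mem_Icc.1 (mem_filter.1 hx).1
    rw [mem_union, mem_union, mem_union]
    by_cases h5 : (N : ℝ) / ℓ ^ (A + 1) ≤ x
    · by_cases h6 : x + H ≤ N
      · by_cases h7 : ∀ n ∈ Ioc x (x + H), n ∉ Ex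
        · exact Or.inr (mem_filter.2 ⟨hx, h5, h6, h7⟩)
        · push Not at h7
          obtain ⟨n, hn, hnE⟩ := h7
          rw [mem_Ioc] at hn
          refine Or.inl (Or.inr (mem_biUnion.2 ⟨n, hnE, ?_⟩))
          rw [mem_Ico]
          omega
      · refine Or.inl (Or.inl (Or.inr ?_))
        rw [mem_Ioc]
        omega
    · refine Or.inl (Or.inl (Or.inl ?_))
      rw [mem_Icc]
      refine ⟨hx'.1, Nat.le_floor ?_⟩
      push Not at h5
      exact h5.le
  -- X3 is small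
  have hX3c : (X3.card : ℝ) * ((N : ℝ) / ℓ ^ (A + a + 3)) ≤ N * (N / ℓ ^ (2 * A + a + 8)) := by
    refine (gaps_count a z N H X3 ?_ _ ?_).trans (mul_le_mul_of_nonneg_left hM hN0.le)
    · intro x hx
      exact (mem_filter.1 (mem_filter.1 hx).1).1
    · intro x hx
      obtain ⟨hx1, hx2, hx3, hx4⟩ := mem_filter.1 hx
      obtain ⟨hx5, hx6⟩ := mem_filter.1 hx1
      have hxN := (mem_Icc.1 hx5).2
      have hstep := gaps_step a z x H ((N : ℝ) / ℓ ^ (A + a + 6)) (by
        intro n hn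
        have hn' := mem_Ioc.1 hn
        by_cases hev : Even n
        · by_contra hcon
          push Not at hcon
          apply hx4 n hn
          rw [hEx, mem_filter, mem_Icc]
          exact ⟨⟨by omega, by omega⟩, fun hr => hx6 n hn ⟨hev, hr⟩, hcon⟩
        · have h7 := good_odd (a := a) hz hev
          have h8 : ((good a z n).card : ℝ) ≤ 1 := by exact_mod_cast h7
          refine lt_of_le_of_lt h8 ?_
          rw [lt_div_iff₀ (by positivity), one_mul]
          have h9 := hpl (A + a + 6) (A + a + 8) (by omega)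
          have h10 : 0 < ℓ ^ (A + a + 8) := by positivity
          linarith)
      refine le_trans ?_ hstep
      -- lower bound for the number of a-primes
      have hxn0 : (n0 : ℝ) ≤ x := hn0'.trans hx2
      have hxn0' : n0 ≤ x := by exact_mod_cast hxn0
      have h5 := hpic x hxn0'
      have hx2' : (2 : ℝ) ≤ x := by
        have : 2 ≤ x := hn0.trans hxn0'
        exact_mod_cast this
      have hlx : 0 < Real.log x := Real.log_pos (by linarith)
      have hlxN : Real.log x ≤ ℓ := by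
        rw [hℓ]
        exact Real.log_le_log (by linarith) (by exact_mod_cast hxN)
      have h6 : (N : ℝ) / ℓ ^ (A + 1) / (2 * ℓ) ^ (a + 1) ≤ pic (a + 1) x := by
        refine le_trans ?_ h5
        gcongr
      have h7 : 2 * ((N : ℝ) / ℓ ^ (A + a + 3)) ≤ (N : ℝ) / ℓ ^ (A + 1) / (2 * ℓ) ^ (a + 1) := by
        rw [mul_pow, div_div, ← mul_div_assoc, div_le_div_iff₀ (by positivity) (by positivity)]
        have e1 : ℓ ^ (A + 1) * (2 ^ (a + 1) * ℓ ^ (a + 1)) = 2 ^ (a + 1) * ℓ ^ (A + a + 2) := by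
          rw [show A + a + 2 = (A + 1) + (a + 1) by ring, pow_add ℓ (A + 1)]; ring
        have e2 : (2 : ℝ) ^ (a + 2) * ℓ ^ (A + a + 2) ≤ ℓ ^ (A + a + 3) := by
          rw [show A + a + 3 = (A + a + 2) + 1 by ring, pow_succ ℓ (A + a + 2), mul_comm]
          gcongr
        rw [e1]
        calc 2 * (N : ℝ) * (2 ^ (a + 1) * ℓ ^ (A + a + 2))
            = N * ((2 : ℝ) ^ (a + 2) * ℓ ^ (A + a + 2)) := by ring
          _ ≤ N * ℓ ^ (A + a + 3) := by gcongr
      have h8 : (H : ℝ) * ((N : ℝ) / ℓ ^ (A + a + 6)) ≤ 1 / 2 * ((N : ℝ) / ℓ ^ (A + a + 3)) := by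
        have h9 : (H : ℝ) * ((N : ℝ) / ℓ ^ (A + a + 6)) ≤ ℓ * ((N : ℝ) / ℓ ^ (A + a + 6)) := by
          gcongr
        have h10 : ℓ * ((N : ℝ) / ℓ ^ (A + a + 6)) = (N : ℝ) / ℓ ^ (A + a + 3) / ℓ ^ 2 := by
          have h11 : ℓ ^ (A + a + 6) = ℓ ^ (A + a + 3) * ℓ ^ 2 * ℓ := by ring
          rw [h11]
          field_simp
        rw [h10] at h9
        refine h9.trans ?_
        rw [div_le_iff₀ (by positivity)]
        have h11 : (2 : ℝ) ≤ ℓ ^ 2 := by nlinarith
        have h12 : 0 ≤ (N : ℝ) / ℓ ^ (A + a + 3) := by positivity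
        nlinarith
      have h9 : (1 : ℝ) ≤ 1 / 2 * ((N : ℝ) / ℓ ^ (A + a + 3)) := by
        rw [← div_le_iff₀' (by norm_num), le_div_iff₀ (by positivity)]
        have h10 := hpl (A + a + 3) (A + a + 8) (by omega)
        linarith
      linarith
  have hX3d : (X3.card : ℝ) ≤ N / ℓ ^ (A + 5) := by
    have e1 : (N : ℝ) * (N / ℓ ^ (2 * A + a + 8)) = N / ℓ ^ (A + 5) * (N / ℓ ^ (A + a + 3)) := by
      rw [show 2 * A + a + 8 = (A + 5) + (A + a + 3) by ring, pow_add]
      field_simp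
    rw [e1] at hX3c
    exact le_of_mul_le_mul_right hX3c (by positivity)
  -- the total
  have hcard : (X.card : ℝ) ≤ N / ℓ ^ (A + 1) + H + H * (N / ℓ ^ (A + a + 6)) + N / ℓ ^ (A + 5) := by
    have h5 := card_le_card hsub
    have h6 : (Icc 1 ⌊(N : ℝ) / ℓ ^ (A + 1)⌋₊ ∪ Ioc (N - H) N ∪
      (Ex.biUnion fun n => Ico (n - H) n) ∪ X3).card ≤ ⌊(N : ℝ) / ℓ ^ (A + 1)⌋₊ + H +
        Ex.card * H + X3.card := by
      refine (card_union_le _ _).trans ?_
      gcongr
      refine (card_union_le _ _).trans ?_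
      refine add_le_add ?_ ?_
      · refine (card_union_le _ _).trans ?_
        rw [Nat.card_Icc, Nat.card_Ioc]
        omega
      · refine card_biUnion_le_card_mul _ _ _ fun n _ => ?_
        rw [Nat.card_Ico]
        omega
    have h7 : (X.card : ℝ) ≤ ⌊(N : ℝ) / ℓ ^ (A + 1)⌋₊ + H + Ex.card * H + X3.card := by
      exact_mod_cast h5.trans h6
    have h8 : (⌊(N : ℝ) / ℓ ^ (A + 1)⌋₊ : ℝ) ≤ N / ℓ ^ (A + 1) := Nat.floor_le (by positivity)
    have h9 : (Ex.card : ℝ) * H ≤ H * (N / ℓ ^ (A + a + 6)) := by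
      rw [mul_comm]
      gcongr
    linarith
  refine hcard.trans ?_
  have g1 : (H : ℝ) ≤ N / ℓ ^ (A + 1) := by
    refine hH.trans ?_
    rw [le_div_iff₀ (by positivity), ← pow_succ']
    have := hpl (A + 1 + 1) (A + a + 8) (by omega)
    have h10 : 0 < ℓ ^ (A + a + 8) := by positivity
    linarith
  have g2 : (H : ℝ) * (N / ℓ ^ (A + a + 6)) ≤ N / ℓ ^ (A + 1) := by
    calc (H : ℝ) * (N / ℓ ^ (A + a + 6)) ≤ ℓ * (N / ℓ ^ (A + a + 6)) := by gcongr
      _ = N / ℓ ^ (A + a + 5) := by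
          rw [show A + a + 6 = (A + a + 5) + 1 by ring, pow_succ]
          field_simp
      _ ≤ N / ℓ ^ (A + 1) := by
          have := hpl (A + 1) (A + a + 5) (by omega)
          gcongr
  have g3 : (N : ℝ) / ℓ ^ (A + 5) ≤ N / ℓ ^ (A + 1) := by
    have := hpl (A + 1) (A + 5) (by omega)
    gcongr
  have g4 : 4 * ((N : ℝ) / ℓ ^ (A + 1)) ≤ N / ℓ ^ A := by
    rw [pow_succ, ← div_div, ← mul_div_assoc, div_le_iff₀ hℓ0]
    have : 0 ≤ (N : ℝ) / ℓ ^ A := by positivity
    nlinarith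
  linarith

open Classical in
theorem gaps : ∃ K : ℕ, ∀ a A : ℕ, ∀ᶠ N : ℕ in atTop,
    (((Icc 1 N).filter fun x => ∀ n ∈ Ioc x (x + ⌊(Real.log (Real.log N)) ^ K⌋₊),
      ¬ (Even n ∧ HasRep a 0 n)).card : ℝ) ≤ N / (Real.log N) ^ A := by
  obtain ⟨K, hK⟩ := rough_gap
  refine ⟨K, fun a A => ?_⟩
  obtain ⟨D0, hD0⟩ := local_global a (A + a + 6)
  have h1 := hK (2 * A + a + 8) (max 1 D0) (le_max_left _ _)
  have h2 := hD0 (max 1 D0) (le_max_right _ _)
  obtain ⟨n1, hn1⟩ := eventually_atTop.1 (pic_ge (a + 1))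
  have hlog : Tendsto (fun N : ℕ => Real.log (N : ℝ)) atTop atTop :=
    Real.tendsto_log_atTop.comp tendsto_natCast_atTop_atTop
  have hlogpow : ∀ (k : ℕ) (c : ℝ), 0 < c → ∀ᶠ x : ℝ in atTop, (Real.log x) ^ k ≤ c * x := by
    intro k c hc
    have h1 : (fun x : ℝ => (Real.log x) ^ k) =o[atTop] (fun x : ℝ => x) :=
      Real.isLittleO_pow_log_id_atTop
    filter_upwards [h1.bound hc, eventually_ge_atTop 1] with x hx hx1
    have hl : 0 ≤ Real.log x := Real.log_nonneg hx1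
    rw [Real.norm_of_nonneg (by positivity), Real.norm_of_nonneg (by linarith)] at hx
    exact hx
  have e1 := hlog.eventually (hlogpow K 1 one_pos)
  have e2 := tendsto_natCast_atTop_atTop.eventually (hlogpow (A + a + 8) (1 / 2) (by norm_num))
  have e3 := hlog.eventually_ge_atTop ((2 : ℝ) ^ (a + 2))
  have e4 := hlog.eventually_ge_atTop 4
  have e5 := tendsto_natCast_atTop_atTop.eventually
    (hlogpow (A + 1) (1 / (max n1 2 + 1 : ℕ)) (by positivity))
  filter_upwards [h1, h2, e1, e2, e3, e4, e5] with N g1 g2 g3 g4 g5 g6 g7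
  have hN0 : (0 : ℝ) < N := by
    by_contra hcon
    have : (N : ℝ) = 0 := le_antisymm (not_lt.1 hcon) (Nat.cast_nonneg _)
    rw [this, Real.log_zero] at g6
    linarith
  refine gaps_fin a A (wX (max 1 D0) N) N _ (max n1 2) (Real.log N) rfl g5 g6 ?_ ?_ ?_
    (le_max_right _ _) (fun n hn => hn1 n ((le_max_left _ _).trans hn)) ?_ g2 g1
  · unfold wX
    refine Nat.le_floor ?_
    push_cast
    calc (2 : ℝ) ≤ Real.log N := by linarith
      _ = Real.log N ^ 1 := (pow_one _).symm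
      _ ≤ _ := pow_le_pow_right₀ (by linarith) (le_max_left _ _)
  · refine (Nat.floor_le ?_).trans ?_
    · have : 0 ≤ Real.log (Real.log N) := Real.log_nonneg (by linarith)
      positivity
    · linarith
  · linarith
  · rw [le_div_iff₀ (by positivity)]
    have h3 : (0 : ℝ) < ((max n1 2 + 1 : ℕ) : ℝ) := by positivity
    rw [one_div, inv_mul_eq_div, le_div_iff₀ h3] at g7
    push_cast at g7 ⊢
    have h4 : 0 ≤ Real.log N ^ (A + 1) := by positivity
    nlinarith

end Pool.Agent.Lib.MP_e3f158_nt.G
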