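import Pool.Agent.Lib.MP_e3f158_nt.G.Model
import Pool.Agent.Lib.MP_e3f158_nt.G.Brun2

/-!
# MP_e3f158_nt, gaps: all shifts killed (module GP-Killed)
-/

set_option autoImplicit false

namespace Pool.Agent.Lib.MP_e3f158_nt.G

open Finset

/-- HINT: `∏_{h ∈ T} (1 - 1[h survives]) = ∑_{U ⊆ T} (-1)^|U| 1[all h ∈ U survive]`
(`h` survives: `∀ p ∈ P, ¬ p ∣ m + h`). Sum over `m`, use `brun2` for every `U ⊆ T`
(`|U| ≤ |T|` in the error term, `2^|T|` sets `U`); the main terms add up to `N/M * gs P |T|`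
(group by the cardinality, `Finset.sum_powerset_apply_card`), then `gs_le`
(`|T| ≤ w + 1 ≤ p` because `T ⊆ [0, w]`). -/
theorem all_killed (N w : ℕ) (T : Finset ℕ) (hT : ∀ h ∈ T, h ≤ w) (P : Finset ℕ)
    (hP : ∀ p ∈ P, p.Prime ∧ w < p) (M v : ℕ) (hM : 0 < M) (hcop : ∀ p ∈ P, Nat.Coprime M p)
    (R : ℕ) :
    (((range N).filter fun m => m ≡ v [MOD M] ∧ ∀ h ∈ T, ∃ p ∈ P, p ∣ m + h).card : ℝ) ≤
      (N : ℝ) / M * (1 - ∏ p ∈ P, (1 - 1 / (p : ℝ))) ^ T.card +
        2 ^ T.card * ((N : ℝ) / M * (2 * Real.exp (3 * T.card * (∑ p ∈ P, (1 : ℝ) / p) - R)) +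
          (1 + (T.card : ℝ) * P.card) ^ R) := by
  classical
  set σ : ℝ := ∑ p ∈ P, (1 : ℝ) / p with hσ
  have hσ0 : 0 ≤ σ := sum_nonneg fun p _ => by positivity
  set X : ℝ := (N : ℝ) / M with hX
  have hX0 : 0 ≤ X := by positivity
  let A : Finset ℕ := (range N).filter fun m => m ≡ v [MOD M]
  let C : Finset ℕ → ℝ := fun U =>
    (((range N).filter fun m => m ≡ v [MOD M] ∧ ∀ h ∈ U, ∀ p ∈ P, ¬ p ∣ m + h).card : ℝ)
  -- inclusion-exclusion
  have h1 : (((range N).filter fun m => m ≡ v [MOD M] ∧ ∀ h ∈ T, ∃ p ∈ P, p ∣ m + h).card : ℝ) =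
      ∑ U ∈ T.powerset, (-1 : ℝ) ^ U.card * C U := by
    have e1 : (((range N).filter fun m => m ≡ v [MOD M] ∧ ∀ h ∈ T, ∃ p ∈ P, p ∣ m + h).card : ℝ) =
        ∑ m ∈ A, ∏ h ∈ T, (1 + -(if (∀ p ∈ P, ¬ p ∣ m + h) then (1 : ℝ) else 0)) := by
      have e2 : ∀ m ∈ A, ∏ h ∈ T, (1 + -(if (∀ p ∈ P, ¬ p ∣ m + h) then (1 : ℝ) else 0)) =
          if (∀ h ∈ T, ∃ p ∈ P, p ∣ m + h) then (1 : ℝ) else 0 := by
        intro m _
        split_ifs with hc
        · refine prod_eq_one fun h hh => ?_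
          obtain ⟨p, hp, hd⟩ := hc h hh
          rw [if_neg (fun hn => hn p hp hd)]
          norm_num
        · push Not at hc
          obtain ⟨h, hh, hn⟩ := hc
          refine prod_eq_zero hh ?_
          rw [if_pos hn]
          norm_num
      rw [sum_congr rfl e2, ← Finset.sum_filter, sum_const, nsmul_eq_mul, mul_one, filter_filter]
    rw [e1]
    have e3 : ∀ m ∈ A, ∏ h ∈ T, (1 + -(if (∀ p ∈ P, ¬ p ∣ m + h) then (1 : ℝ) else 0)) =
        ∑ U ∈ T.powerset, (-1 : ℝ) ^ U.card *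
          (if (∀ h ∈ U, ∀ p ∈ P, ¬ p ∣ m + h) then (1 : ℝ) else 0) := by
      intro m _
      rw [prod_one_add]
      refine sum_congr rfl fun U _ => ?_
      rw [prod_neg]
      congr 1
      split_ifs with hc
      · refine prod_eq_one fun h hh => ?_
        rw [if_pos (hc h hh)]
      · push Not at hc
        obtain ⟨h, hh, p, hp, hd⟩ := hc
        refine prod_eq_zero hh ?_
        rw [if_neg]
        exact fun hn => hn p hp hd
    rw [sum_congr rfl e3, sum_comm]
    refine sum_congr rfl fun U _ => ?_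
    rw [← mul_sum, ← Finset.sum_filter, sum_const, nsmul_eq_mul, mul_one, filter_filter]
  -- the error terms
  set E : ℝ := X * (2 * Real.exp (3 * T.card * σ - R)) + (1 + (T.card : ℝ) * P.card) ^ R with hE
  have h2 : ∀ U ∈ T.powerset, (-1 : ℝ) ^ U.card * C U ≤
      (-1 : ℝ) ^ U.card * (X * ∏ p ∈ P, (1 - (U.card : ℝ) / p)) + E := by
    intro U hU
    have hUT : U ⊆ T := mem_powerset.1 hU
    have hc : (U.card : ℝ) ≤ T.card := by exact_mod_cast card_le_card hUT
    have h3 := brun2 N w U (fun h hh => hT h (hUT hh)) P hP M v hM hcop R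
    have h4 : X * (2 * Real.exp (3 * U.card * σ - R)) + (1 + (U.card : ℝ) * P.card) ^ R ≤ E := by
      rw [hE]
      have h5 : Real.exp (3 * U.card * σ - R) ≤ Real.exp (3 * T.card * σ - R) := by
        rw [Real.exp_le_exp]
        have := mul_le_mul_of_nonneg_right hc hσ0
        linarith
      have h6 : (1 + (U.card : ℝ) * P.card) ^ R ≤ (1 + (T.card : ℝ) * P.card) ^ R := by
        gcongr
      have h7 := mul_le_mul_of_nonneg_left (mul_le_mul_of_nonneg_left h5 (zero_le_two)) hX0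
      linarith
    have h5 : |(-1 : ℝ) ^ U.card * C U - (-1 : ℝ) ^ U.card *
        (X * ∏ p ∈ P, (1 - (U.card : ℝ) / p))| ≤ E := by
      rw [← mul_sub, abs_mul, abs_pow, abs_neg, abs_one, one_pow, one_mul]
      exact h3.trans h4
    have := (abs_le.1 h5).2
    linarith
  rw [h1]
  refine (sum_le_sum h2).trans ?_
  rw [sum_add_distrib, sum_const, card_powerset, nsmul_eq_mul]
  push_cast
  have h3 : ∑ U ∈ T.powerset, (-1 : ℝ) ^ U.card * (X * ∏ p ∈ P, (1 - (U.card : ℝ) / p)) =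
      X * gs P T.card := by
    rw [sum_powerset_apply_card (fun j : ℕ => (-1 : ℝ) ^ j * (X * ∏ p ∈ P, (1 - (j : ℝ) / p)))]
    unfold gs
    rw [mul_sum]
    refine sum_congr rfl fun j _ => ?_
    rw [nsmul_eq_mul]
    ring
  rw [h3]
  have hTw : T.card ≤ w + 1 := by
    calc T.card ≤ (range (w + 1)).card := card_le_card fun h hh => mem_range.2 (by
            have := hT h hh
            omega)
      _ = w + 1 := card_range _
  have h4 := (gs_le P T.card (fun p hp => ⟨(hP p hp).1.pos, by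
    have := (hP p hp).2
    omega⟩)).2
  have h5 := mul_le_mul_of_nonneg_left h4 hX0
  linarith

end Pool.Agent.Lib.MP_e3f158_nt.G
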