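import Pool.Agent.Lib.MP_e3f158_nt.G.Defs
import Pool.Agent.Lib.MP_e3f158_nt.Main
import Pool.Agent.Lib.MP_e3f158_nt.U.L2

/-!
# MP_e3f158_nt, gaps: local-global principle for almost all integers (module GP-LG)
-/

set_option autoImplicit false

namespace Pool.Agent.Lib.MP_e3f158_nt.G

open Finset Filter Pool.MP_dd84fd_nt.E2 Pool.MP_dd84fd_nt.En

open Classical in
/-- The `a`-primes `r < n - 1` such that `n - r` has no prime factor `≤ z`. -/
noncomputable def good (a z n : ℕ) : Finset ℕ :=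
  (Icc 1 n).filter fun r => (∃ x : ℕ, 1 ≤ x ∧ ipr a x = r) ∧ r + 1 < n ∧
    Nat.Coprime (n - r) (primorial z)

theorem LG_prime {p : ℕ} (hp : p.Prime) : ∃ y : ℕ, 1 ≤ y ∧ ipr 0 y = p := by
  refine ⟨Nat.count Nat.Prime p + 1, by omega, ?_⟩
  show pr^[0 + 1] _ = p
  rw [zero_add, Function.iterate_one, pr, Nat.add_sub_cancel]
  exact Nat.nth_count hp

theorem LG_f2_nonneg (z m : ℕ) : 0 ≤ f2 z m := by
  unfold f2 f1
  have h := Real.log_natCast_nonneg m
  split_ifs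
  · positivity
  · simp

theorem LG_f2_ge {z m N : ℕ} (hm : 2 ≤ m) (hmN : m ≤ N) (hc : Nat.Coprime m (primorial z)) :
    1 / Real.log N ≤ f2 z m := by
  unfold f2 f1
  rw [if_pos hc]
  have hm' : (2 : ℝ) ≤ m := by exact_mod_cast hm
  have hmN' : (m : ℝ) ≤ N := by exact_mod_cast hmN
  have h1 : 0 < Real.log m := Real.log_pos (by linarith)
  have h2 : Real.log m ≤ Real.log N := Real.log_le_log (by linarith) hmN'
  have h3 : (0 : ℝ) < Nat.totient (primorial z) := by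
    exact_mod_cast Nat.totient_pos.2 (primorial_pos z)
  have h4 : (1 : ℝ) ≤ (primorial z : ℝ) / (Nat.totient (primorial z) : ℝ) := by
    rw [le_div_iff₀ h3, one_mul]
    exact_mod_cast Nat.totient_le _
  calc 1 / Real.log N ≤ 1 / Real.log m := by gcongr
    _ ≤ _ := by gcongr

open Classical in
theorem LG_RA_le {a N n : ℕ} (h : ¬ HasRep a 0 n) :
    U.RA ((Icc 1 N).filter fun r => ∃ x : ℕ, 1 ≤ x ∧ ipr a x = r) n ≤ 1 := by
  unfold U.RA
  rw [← sum_filter, sum_const, nsmul_eq_mul, mul_one]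
  norm_cast
  rw [card_le_one]
  have key : ∀ r ∈ (((Icc 1 N).filter fun r => ∃ x : ℕ, 1 ≤ x ∧ ipr a x = r).filter
      fun r => r < n).filter (fun r => (n - r).Prime), 2 * r = n := by
    intro r hr
    rw [mem_filter, mem_filter, mem_filter] at hr
    obtain ⟨⟨⟨_, x, hx, hxr⟩, hrn⟩, hp⟩ := hr
    obtain ⟨y, hy, hyp⟩ := LG_prime hp
    by_contra hne
    apply h
    refine ⟨x, y, hx, hy, ?_, ?_⟩
    · rw [hxr, hyp]; omega
    · rw [hxr, hyp]; omega
  intro r hr r' hr'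
  have h1 := key r hr
  have h2 := key r' hr'
  omega

open Classical in
theorem LG_Rz_ge {a z n N : ℕ} (hn : n ≤ N) :
    ((good a z n).card : ℝ) / Real.log N ≤
      U.Rz z ((Icc 1 N).filter fun r => ∃ x : ℕ, 1 ≤ x ∧ ipr a x = r) n := by
  unfold U.Rz
  have hsub : good a z n ⊆ ((Icc 1 N).filter fun r => ∃ x : ℕ, 1 ≤ x ∧ ipr a x = r).filter
      fun r => r < n := by
    intro r hr
    unfold good at hr
    rw [mem_filter, mem_Icc] at hr
    rw [mem_filter, mem_filter, mem_Icc]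
    exact ⟨⟨⟨hr.1.1, by omega⟩, hr.2.1⟩, by omega⟩
  calc ((good a z n).card : ℝ) / Real.log N = ∑ r ∈ good a z n, 1 / Real.log N := by
        rw [sum_const, nsmul_eq_mul]; ring
    _ ≤ ∑ r ∈ good a z n, f2 z (n - r) := by
        refine sum_le_sum fun r hr => ?_
        unfold good at hr
        rw [mem_filter, mem_Icc] at hr
        exact LG_f2_ge (by omega) (by omega) hr.2.2.2
    _ ≤ _ := sum_le_sum_of_subset_of_nonneg hsub fun r _ _ => LG_f2_nonneg _ _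

open Classical in
theorem local_global (a A : ℕ) : ∃ D0 : ℕ, ∀ D : ℕ, D0 ≤ D → ∀ᶠ N : ℕ in atTop,
    (((Icc 1 N).filter fun n => ¬ HasRep a 0 n ∧
      (N : ℝ) / (Real.log N) ^ A ≤ ((good a (wX D N) n).card : ℝ)).card : ℝ) ≤
      N / (Real.log N) ^ A := by
  obtain ⟨D0, hD0⟩ := U.l2_primes (2 * A + 3)
  refine ⟨D0, fun D hD => ?_⟩
  obtain ⟨X0, hX0⟩ := hD0 D hD
  have hlog : ∀ᶠ N : ℕ in atTop, (4 : ℝ) ≤ Real.log N :=
    (Real.tendsto_log_atTop.comp tendsto_natCast_atTop_atTop).eventually_ge_atTop 4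
  have hpow : ∀ᶠ N : ℕ in atTop, 2 * (Real.log N) ^ (A + 1) ≤ (N : ℝ) := by
    have h1 : (fun x : ℝ => (Real.log x) ^ (A + 1)) =o[atTop] (fun x : ℝ => x) :=
      Real.isLittleO_pow_log_id_atTop
    have h2 := h1.bound (c := 1 / 2) (by norm_num)
    have h3 := tendsto_natCast_atTop_atTop.eventually h2
    filter_upwards [h3, eventually_ge_atTop 1] with N hN hN1
    have hN0 : (1 : ℝ) ≤ N := by exact_mod_cast hN1
    have hl : 0 ≤ Real.log N := Real.log_nonneg hN0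
    rw [Real.norm_of_nonneg (by positivity), Real.norm_of_nonneg (by positivity)] at hN
    linarith
  filter_upwards [eventually_ge_atTop X0, hlog, hpow, eventually_ge_atTop 1] with N hN hL hP hN1
  set L : ℝ := Real.log N with hLdef
  set z := wX D N with hz
  set S := (Icc 1 N).filter (fun r => ∃ x : ℕ, 1 ≤ x ∧ ipr a x = r) with hS
  have h1 := hX0 N hN S (filter_subset _ _)
  set E := (Icc 1 N).filter (fun n => ¬ HasRep a 0 n ∧ (N : ℝ) / L ^ A ≤ ((good a z n).card : ℝ))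
    with hE
  have hN0 : (0 : ℝ) < N := by exact_mod_cast hN1
  have hL0 : 0 < L := by linarith
  have key : ∀ n ∈ E, ((N : ℝ) / (2 * L ^ (A + 1))) ^ 2 ≤ (U.RA S n - U.Rz z S n) ^ 2 := by
    intro n hn
    rw [hE, mem_filter, mem_Icc] at hn
    obtain ⟨⟨_, hnN⟩, hrep, hg⟩ := hn
    have h2 := LG_RA_le (N := N) hrep
    have h3 := LG_Rz_ge (a := a) (z := z) (n := n) (N := N) hnN
    rw [← hS] at h2 h3
    have h4 : (N : ℝ) / L ^ (A + 1) ≤ U.Rz z S n := by
      refine le_trans ?_ h3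
      rw [pow_succ, ← div_div]
      gcongr
    have h5 : (1 : ℝ) ≤ (N : ℝ) / (2 * L ^ (A + 1)) := by
      rw [le_div_iff₀ (by positivity), one_mul]
      exact hP
    have h6 : (N : ℝ) / L ^ (A + 1) = 2 * ((N : ℝ) / (2 * L ^ (A + 1))) := by
      field_simp
    have h7 : (N : ℝ) / (2 * L ^ (A + 1)) ≤ U.Rz z S n - U.RA S n := by linarith
    have h8 : (U.RA S n - U.Rz z S n) ^ 2 = (U.Rz z S n - U.RA S n) ^ 2 := by ring
    rw [h8]
    exact pow_le_pow_left₀ (by linarith) h7 2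
  have h2 : (E.card : ℝ) * ((N : ℝ) / (2 * L ^ (A + 1))) ^ 2 ≤
      ((N : ℝ) / L ^ (2 * A + 3)) ^ 2 * N := by
    calc (E.card : ℝ) * ((N : ℝ) / (2 * L ^ (A + 1))) ^ 2
        = ∑ n ∈ E, ((N : ℝ) / (2 * L ^ (A + 1))) ^ 2 := by rw [sum_const, nsmul_eq_mul]
      _ ≤ ∑ n ∈ E, (U.RA S n - U.Rz z S n) ^ 2 := sum_le_sum key
      _ ≤ ∑ n ∈ Icc 1 N, (U.RA S n - U.Rz z S n) ^ 2 :=
          sum_le_sum_of_subset_of_nonneg (filter_subset _ _) fun _ _ _ => sq_nonneg _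
      _ ≤ ((N : ℝ) / L ^ (2 * A + 3)) ^ 2 * S.card := h1
      _ ≤ _ := by
          have h3 : (S.card : ℝ) ≤ N := by
            have := card_filter_le (Icc 1 N) (fun r => ∃ x : ℕ, 1 ≤ x ∧ ipr a x = r)
            rw [Nat.card_Icc, Nat.add_sub_cancel] at this
            exact_mod_cast this
          gcongr
  -- conclusion
  have h3 : (E.card : ℝ) * L ^ (2 * A + 4) ≤ 4 * N := by
    have e1 : ((N : ℝ) / (2 * L ^ (A + 1))) ^ 2 = (N : ℝ) ^ 2 / (4 * L ^ (2 * A + 2)) := by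
      rw [div_pow, mul_pow, ← pow_mul]
      congr 2
      · norm_num
      · congr 1; ring
    have e2 : ((N : ℝ) / L ^ (2 * A + 3)) ^ 2 = (N : ℝ) ^ 2 / L ^ (4 * A + 6) := by
      rw [div_pow, ← pow_mul]
      congr 2
      ring
    rw [e1, e2] at h2
    have h4 : (E.card : ℝ) / (4 * L ^ (2 * A + 2)) ≤ N / L ^ (4 * A + 6) := by
      have h5 : (E.card : ℝ) * ((N : ℝ) ^ 2 / (4 * L ^ (2 * A + 2))) =
          (N : ℝ) ^ 2 * ((E.card : ℝ) / (4 * L ^ (2 * A + 2))) := by ring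
      have h6 : (N : ℝ) ^ 2 / L ^ (4 * A + 6) * N = (N : ℝ) ^ 2 * (N / L ^ (4 * A + 6)) := by ring
      rw [h5, h6] at h2
      exact le_of_mul_le_mul_left h2 (by positivity)
    rw [div_le_div_iff₀ (by positivity) (by positivity)] at h4
    have e3 : L ^ (4 * A + 6) = L ^ (2 * A + 4) * L ^ (2 * A + 2) := by rw [← pow_add]; congr 1; ring
    rw [e3] at h4
    have h7 : (E.card : ℝ) * L ^ (2 * A + 4) * L ^ (2 * A + 2) ≤ 4 * N * L ^ (2 * A + 2) := by
      linarith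
    exact le_of_mul_le_mul_right h7 (by positivity)
  rw [le_div_iff₀ (by positivity)]
  have h4 : 4 * L ^ A ≤ L ^ (2 * A + 4) := by
    have e4 : L ^ (2 * A + 4) = L ^ (A + 4) * L ^ A := by rw [← pow_add]; congr 1; ring
    rw [e4]
    have h5 : (4 : ℝ) ≤ L ^ (A + 4) := by
      calc (4 : ℝ) ≤ L := hL
        _ = L ^ 1 := (pow_one _).symm
        _ ≤ L ^ (A + 4) := pow_le_pow_right₀ (by linarith) (by omega)
    gcongr
  have h5 : 0 ≤ (E.card : ℝ) := Nat.cast_nonneg _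
  nlinarith [mul_le_mul_of_nonneg_left h4 h5]

end Pool.Agent.Lib.MP_e3f158_nt.G
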