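import Pool.Agent.Lib.MP_e3f158_nt.G.Defs

/-!
# MP_e3f158_nt, gaps: the model (module GP-Model)

Random model: every prime `p ∈ P` kills each of the `s` points with probability `1/p` and none of
them with probability `1 - s/p`, independently. `gs P s` is the probability that all points are
killed.
-/

set_option autoImplicit false

namespace Pool.Agent.Lib.MP_e3f158_nt.G

open Finset

/-- probability that all `s` points are killed (inclusion-exclusion over the surviving points) -/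
noncomputable def gs (P : Finset ℕ) (s : ℕ) : ℝ :=
  ∑ j ∈ range (s + 1), (-1 : ℝ) ^ j * (s.choose j : ℝ) * ∏ p ∈ P, (1 - (j : ℝ) / p)

private theorem gs_zero (P : Finset ℕ) : gs P 0 = 1 := by
  unfold gs
  simp

private theorem gs_empty (s : ℕ) : gs ∅ (s + 1) = 0 := by
  unfold gs
  have h1 := Int.alternating_sum_range_choose_of_ne (n := s + 1) (by omega)
  have h2 : ((∑ k ∈ range (s + 1 + 1), ((-1) ^ k * (s + 1).choose k : ℤ) : ℤ) : ℝ) = ((0 : ℤ) : ℝ) := by
    rw [h1]
  push_cast at h2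
  simp only [prod_empty, mul_one]
  exact_mod_cast h2

private theorem gs_insert (p : ℕ) (P : Finset ℕ) (hp : p ∉ P) (s : ℕ) :
    gs (insert p P) (s + 1) = (1 - ((s : ℝ) + 1) / p) * gs P (s + 1) + (((s : ℝ) + 1) / p) * gs P s := by
  have h1 : gs P s = ∑ j ∈ range (s + 1 + 1), (-1 : ℝ) ^ j * (s.choose j : ℝ) *
      ∏ p ∈ P, (1 - (j : ℝ) / p) := by
    unfold gs
    rw [sum_range_succ _ (s + 1), Nat.choose_succ_self]
    simp
  rw [h1]
  unfold gs
  rw [mul_sum, mul_sum, ← sum_add_distrib]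
  refine sum_congr rfl fun j _ => ?_
  rw [prod_insert hp]
  have h2 : (j : ℝ) * ((s + 1).choose j : ℝ) = ((s : ℝ) + 1) * (((s + 1).choose j : ℝ) - (s.choose j : ℝ)) := by
    rcases j with _ | j
    · simp
    · have h3 := Nat.add_one_mul_choose_eq s j
      have h4 : (((s + 1) * s.choose j : ℕ) : ℝ) = (((s + 1).choose (j + 1) * (j + 1) : ℕ) : ℝ) := by
        rw [h3]
      push_cast at h4
      have h5 : ((s + 1).choose (j + 1) : ℝ) = (s.choose j : ℝ) + (s.choose (j + 1) : ℝ) := by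
        rw [Nat.choose_succ_succ]
        push_cast
        ring
      push_cast
      rw [mul_comm ((j : ℝ) + 1), ← h4, h5]
      ring
  set A : ℝ := ∏ p ∈ P, (1 - (j : ℝ) / p)
  have h6 : (-1 : ℝ) ^ j * ((s + 1).choose j : ℝ) * ((1 - (j : ℝ) / p) * A) =
      (-1 : ℝ) ^ j * ((s + 1).choose j : ℝ) * A -
        (-1 : ℝ) ^ j * ((j : ℝ) * ((s + 1).choose j : ℝ)) * A / p := by ring
  rw [h6, h2]
  ring

private theorem pow_bern (u x : ℝ) (hu : 0 ≤ u) (hx : 0 ≤ x) (n : ℕ) :
    u ^ (n + 1) + ((n : ℝ) + 1) * u ^ n * x ≤ (u + x) ^ (n + 1) := by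
  induction n with
  | zero => simp
  | succ n ih =>
    have h1 : (u + x) ^ (n + 1 + 1) = (u + x) ^ (n + 1) * (u + x) := pow_succ _ _
    have h2 := mul_le_mul_of_nonneg_right ih (add_nonneg hu hx)
    have h3 : 0 ≤ ((n : ℝ) + 1) * u ^ n * x * x := by positivity
    rw [h1]
    push_cast
    calc u ^ (n + 1 + 1) + ((n : ℝ) + 1 + 1) * u ^ (n + 1) * x
        ≤ u ^ (n + 1 + 1) + ((n : ℝ) + 1 + 1) * u ^ (n + 1) * x + ((n : ℝ) + 1) * u ^ n * x * x := by
          linarith
      _ = (u ^ (n + 1) + ((n : ℝ) + 1) * u ^ n * x) * (u + x) := by ring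
      _ ≤ _ := h2

/-- HINT: induction on `P`. For `P = ∅` both sides are `0 ^ s` (alternating sum of binomials).
`gs (insert p P) s = (1 - s/p) * gs P s + (s/p) * gs P (s-1)` because
`j * choose s j = s * (choose s j - choose (s-1) j)`. With `u = 1 - ∏ (1 - 1/q)`, `v = 1 - u`:
`u^(s-1) * ((1 - s/p) * u + s/p) = u^(s-1) * (u + s v / p) ≤ (u + v/p)^s` (binomial theorem,
`0 ≤ u, v`), and `u + v/p = 1 - ∏_{insert p P} (1 - 1/q)`. -/
theorem gs_le (P : Finset ℕ) (s : ℕ) (hP : ∀ p ∈ P, 0 < p ∧ s ≤ p) :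
    0 ≤ gs P s ∧ gs P s ≤ (1 - ∏ p ∈ P, (1 - 1 / (p : ℝ))) ^ s := by
  classical
  induction P using Finset.induction_on generalizing s with
  | empty =>
    rcases s with _ | s
    · rw [gs_zero]
      simp
    · rw [gs_empty]
      simp
  | insert p P hp ih =>
    rcases s with _ | s
    · rw [gs_zero]
      simp
    have hP' : ∀ q ∈ P, 0 < q ∧ s + 1 ≤ q := fun q hq => hP q (mem_insert_of_mem hq)
    have hp0 := hP p (mem_insert_self p P)
    have h1 := ih (s + 1) hP'
    have h2 := ih s (fun q hq => ⟨(hP' q hq).1, by have := (hP' q hq).2; omega⟩)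
    have hpr : (0 : ℝ) < p := by exact_mod_cast hp0.1
    have hsp : ((s : ℝ) + 1) / p ≤ 1 := by
      rw [div_le_one hpr]
      exact_mod_cast hp0.2
    have hsp0 : 0 ≤ ((s : ℝ) + 1) / p := by positivity
    rw [gs_insert p P hp s, prod_insert hp]
    set v : ℝ := ∏ q ∈ P, (1 - 1 / (q : ℝ)) with hv
    have hf : ∀ q ∈ P, 0 ≤ 1 - 1 / (q : ℝ) ∧ 1 - 1 / (q : ℝ) ≤ 1 := by
      intro q hq
      have hq0 : (1 : ℝ) ≤ q := by exact_mod_cast (hP' q hq).1
      have hq1 : 1 / (q : ℝ) ≤ 1 := by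
        rw [div_le_one (by linarith)]
        exact hq0
      have hq2 : 0 ≤ 1 / (q : ℝ) := by positivity
      constructor <;> linarith
    have hv0 : 0 ≤ v := prod_nonneg fun q hq => (hf q hq).1
    have hv1 : v ≤ 1 := prod_le_one (fun q hq => (hf q hq).1) fun q hq => (hf q hq).2
    constructor
    · have := mul_nonneg (sub_nonneg.2 hsp) h1.1
      have := mul_nonneg hsp0 h2.1
      linarith
    · have hu0 : 0 ≤ 1 - v := sub_nonneg.2 hv1
      have e1 : 1 - (1 - 1 / (p : ℝ)) * v = (1 - v) + v / p := by ring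
      have e2 := pow_bern (1 - v) (v / p) hu0 (by positivity) s
      rw [e1]
      refine le_trans ?_ e2
      have e3 := mul_le_mul_of_nonneg_left h1.2 (sub_nonneg.2 hsp)
      have e4 := mul_le_mul_of_nonneg_left h2.2 hsp0
      calc _ ≤ (1 - ((s : ℝ) + 1) / p) * (1 - v) ^ (s + 1) + ((s : ℝ) + 1) / p * (1 - v) ^ s := by
            linarith
        _ = _ := by
            rw [pow_succ]
            field_simp
            ring

end Pool.Agent.Lib.MP_e3f158_nt.G
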